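import Pool.Agent.Y145.DI.Stick
import Pool.Agent.H916R2.Saw

/-!
# The arithmetic of the Stickelberger exponents modulo `4 * ℓ`
-/

set_option autoImplicit false

namespace Pool.Agent.Q5.Cheb

open Finset Pool.Agent.H916R2 Pool.Agent.Y145.DI

/-- An even nontrivial character modulo `ℓ` that is trivial on `p`, when `p` is not a primitive
root modulo `ℓ` and `ℓ ≡ 1 (mod 4)`. -/
theorem exists_omega (ℓ p : ℕ) [Fact ℓ.Prime] (hℓ : ℓ % 4 = 1) (hp0 : (p : ZMod ℓ) ≠ 0)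
    (hord : orderOf (p : ZMod ℓ) ≠ ℓ - 1) :
    ∃ ω : DirichletCharacter ℂ ℓ, ω ≠ 1 ∧ ω (-1) = 1 ∧ ω (p : ZMod ℓ) = 1 := by
  have hℓp : ℓ.Prime := Fact.out
  have hℓ2 : 2 ≤ ℓ := hℓp.two_le
  obtain ⟨g, hg⟩ := IsCyclic.exists_generator (α := (ZMod ℓ)ˣ)
  have hgo : orderOf g = ℓ - 1 := by
    rw [orderOf_eq_card_of_forall_mem_zpowers hg, Nat.card_eq_fintype_card, ZMod.card_units]
  -- the unit `p`
  set P : (ZMod ℓ)ˣ := Units.mk0 (p : ZMod ℓ) hp0 with hP
  have hPo : orderOf P = orderOf (p : ZMod ℓ) := by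
    rw [← orderOf_units]
    simp [hP]
  have hdvd : orderOf P ∣ ℓ - 1 := by
    have := orderOf_dvd_card (x := P)
    rwa [ZMod.card_units] at this
  obtain ⟨m, hm⟩ := hdvd
  have hm1 : m ≠ 1 := by
    rintro rfl
    rw [mul_one] at hm
    exact hord (by rw [← hPo, ← hm])
  obtain ⟨r, hr, hrm⟩ := Nat.exists_prime_and_dvd hm1
  obtain ⟨k, hk⟩ := hrm
  -- `r ∣ ℓ - 1`
  have hrℓ : ℓ - 1 = r * (orderOf P * k) := by rw [hm, hk]; ring
  have hcard : Fintype.card (ZMod ℓ) = ℓ := ZMod.card ℓ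
  obtain ⟨ω, hω⟩ : ∃ ω : DirichletCharacter ℂ ℓ, orderOf ω = r := by
    have h1 : r ∣ Fintype.card (ZMod ℓ) - 1 := by
      rw [hcard, hrℓ]; exact dvd_mul_right _ _
    exact MulChar.exists_mulChar_orderOf (ZMod ℓ) h1
      (Complex.isPrimitiveRoot_exp r hr.ne_zero)
  have hpow : ∀ u v : (ZMod ℓ)ˣ, u = v ^ r → ω (u : ZMod ℓ) = 1 := by
    intro u v huv
    rw [huv, Units.val_pow_eq_pow_val, map_pow, ← MulChar.pow_apply_coe, ← hω, pow_orderOf_eq_one,
      MulChar.one_apply_coe]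
  have hn1 : 0 < ℓ - 1 := by omega
  refine ⟨ω, ?_, ?_, ?_⟩
  · rintro rfl
    rw [orderOf_one] at hω
    exact hr.one_lt.ne hω
  · -- `-1` is an `r`-th power
    have h1 : r ∣ (ℓ - 1) / 2 := by
      obtain ⟨c, hc⟩ : ∃ c, ℓ - 1 = 4 * c := ⟨(ℓ - 1) / 4, by omega⟩
      have h2 : (ℓ - 1) / 2 = 2 * c := by omega
      rw [h2]
      rcases (Nat.Prime.eq_one_or_self_of_dvd Nat.prime_two _ (Nat.gcd_dvd_left 2 r)) with h | h
      · have h3 : Nat.Coprime r 2 := by
          rw [Nat.Coprime, Nat.gcd_comm]; exact h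
        have h4 : r ∣ 4 * c := by rw [← hc, hrℓ]; exact dvd_mul_right _ _
        have h5 : 4 * c = 2 * (2 * c) := by ring
        rw [h5] at h4
        exact h3.dvd_of_dvd_mul_left h4
      · have h3 : 2 ∣ r := by
          have := Nat.gcd_dvd_right 2 r
          rwa [h] at this
        have h4 : r = 2 := ((Nat.prime_dvd_prime_iff_eq Nat.prime_two hr).1 h3).symm
        rw [h4]; exact dvd_mul_right _ _
    obtain ⟨c, hc⟩ := h1
    have h2 : (-1 : (ZMod ℓ)ˣ) = g ^ ((ℓ - 1) / 2) := by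
      have h3 : (g ^ ((ℓ - 1) / 2)) ^ 2 = 1 := by
        rw [← pow_mul, Nat.div_mul_cancel (by omega : 2 ∣ ℓ - 1), ← hgo, pow_orderOf_eq_one]
      have h4 : (g ^ ((ℓ - 1) / 2)) ≠ 1 := by
        intro h
        have h5 := orderOf_dvd_of_pow_eq_one h
        rw [hgo] at h5
        have := Nat.le_of_dvd (by omega) h5
        omega
      have h5 : (((g ^ ((ℓ - 1) / 2) : (ZMod ℓ)ˣ)) : ZMod ℓ) ^ 2 = 1 := by
        rw [← Units.val_pow_eq_pow_val, h3, Units.val_one]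
      rw [sq] at h5
      rcases mul_self_eq_one_iff.1 h5 with h | h
      · exact absurd (Units.ext (by rw [h, Units.val_one])) h4
      · apply Units.ext
        rw [h]; simp
    have h3 := hpow (-1) (g ^ c) (by rw [h2, hc, ← pow_mul, mul_comm])
    simpa using h3
  · have h1 : P ^ (orderOf P * k) = 1 := by rw [pow_mul, pow_orderOf_eq_one, one_pow]
    obtain ⟨a, ha⟩ := mem_powers_iff_mem_zpowers.2 (hg P)
    simp only at ha
    have h2 : ℓ - 1 ∣ a * (orderOf P * k) := by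
      rw [← hgo]
      apply orderOf_dvd_of_pow_eq_one
      rw [pow_mul, ha, h1]
    have hpos : 0 < orderOf P * k := by
      rcases Nat.eq_zero_or_pos (orderOf P * k) with h | h
      · rw [h, mul_zero] at hrℓ; omega
      · exact h
    have h3 : r ∣ a := by
      rw [hrℓ] at h2
      exact Nat.dvd_of_mul_dvd_mul_right hpos h2
    obtain ⟨c, hc⟩ := h3
    have h4 := hpow P (g ^ c) (by rw [← ha, hc, ← pow_mul, mul_comm])
    simpa [hP] using h4

/-- The character modulo `4 * ℓ`. -/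
noncomputable def chi (ℓ : ℕ) (ω : DirichletCharacter ℂ ℓ) : DirichletCharacter ℂ (4 * ℓ) :=
  DirichletCharacter.changeLevel (dvd_mul_right 4 ℓ)
      (ZMod.χ₄.ringHomComp (Int.castRingHom ℂ) : DirichletCharacter ℂ 4) *
    DirichletCharacter.changeLevel (dvd_mul_left ℓ 4) ω

theorem chi_natCast (ℓ : ℕ) (ω : DirichletCharacter ℂ ℓ) (n : ℕ) (hn : n.Coprime (4 * ℓ)) :
    chi ℓ ω (n : ZMod (4 * ℓ)) = ((ZMod.χ₄ (n : ZMod 4) : ℤ) : ℂ) * ω (n : ZMod ℓ) := by
  have hu : IsUnit ((n : ZMod (4 * ℓ))) := (ZMod.isUnit_iff_coprime n (4 * ℓ)).2 hn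
  obtain ⟨u, hu⟩ := hu
  unfold chi
  rw [MulChar.mul_apply, ← hu, DirichletCharacter.changeLevel_eq_cast_of_dvd,
    DirichletCharacter.changeLevel_eq_cast_of_dvd, hu]
  have h1 : ((n : ZMod (4 * ℓ)).cast : ZMod 4) = (n : ZMod 4) :=
    ZMod.cast_natCast (dvd_mul_right 4 ℓ) n
  have h2 : ((n : ZMod (4 * ℓ)).cast : ZMod ℓ) = (n : ZMod ℓ) :=
    ZMod.cast_natCast (dvd_mul_left ℓ 4) n
  rw [h1, h2]
  rfl

theorem SS_eq_zero {m : ℕ} [NeZero m] (χ : DirichletCharacter ℂ m) (a : ZMod m) (v : (ZMod m)ˣ)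
    (hv : (v : ZMod m) * a = a) (hχ : χ v ≠ 1) : SS χ a = 0 := by
  have h1 : SS χ a = χ v * SS χ a := by
    conv_lhs => unfold SS
    rw [← Equiv.sum_comp (Equiv.mulRight v), SS, mul_sum]
    refine sum_congr rfl fun t _ => ?_
    simp only [Equiv.coe_mulRight, Units.val_mul, map_mul]
    rw [mul_assoc (t : ZMod m), hv]
    ring
  have h2 : (χ v - 1) * SS χ a = 0 := by linear_combination - h1
  exact (mul_eq_zero.1 h2).resolve_left (sub_ne_zero.2 hχ)

theorem SS_unit {m : ℕ} [NeZero m] (χ : DirichletCharacter ℂ m) (u : (ZMod m)ˣ) :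
    SS χ 1 = χ u * SS χ u := by
  conv_lhs => unfold SS
  rw [← Equiv.sum_comp (Equiv.mulRight u), SS, mul_sum]
  refine sum_congr rfl fun t _ => ?_
  simp only [Equiv.coe_mulRight, Units.val_mul, map_mul, mul_one]
  ring

theorem main_arith (ℓ p F : ℕ) [Fact ℓ.Prime] (hp : p.Prime) (hne : ℓ ≠ p) (hℓ : ℓ % 4 = 1)
    (hp4 : p % 4 = 1) (hF : 0 < F)
    (hW : ∀ b : ℕ, 0 < b → b < 4 * ℓ → b.Coprime (4 * ℓ) →
      expo p (4 * ℓ) F b = expo p (4 * ℓ) F ((b + 2 * ℓ) % (4 * ℓ))) :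
    orderOf (p : ZMod ℓ) = ℓ - 1 := by
  have hℓp : ℓ.Prime := Fact.out
  have hℓ2 : 2 ≤ ℓ := hℓp.two_le
  have : NeZero (4 * ℓ) := ⟨by omega⟩
  have hpℓ : Nat.Coprime p ℓ := (Nat.coprime_primes hp hℓp).2 (Ne.symm hne)
  have hp0 : (p : ZMod ℓ) ≠ 0 := by
    intro h
    rw [ZMod.natCast_eq_zero_iff] at h
    exact hne ((Nat.prime_dvd_prime_iff_eq hℓp hp).1 h)
  by_contra hord
  obtain ⟨ω, hω1, hωm, hωp⟩ := exists_omega ℓ p hℓ hp0 hord
  set N := 4 * ℓ with hN
  have hp2 : Nat.Coprime p 4 := by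
    rw [Nat.coprime_comm]
    exact Nat.Coprime.pow_left 2 ((Nat.coprime_primes Nat.prime_two hp).2 (by omega))
  have hpN : Nat.Coprime p N := Nat.Coprime.mul_right hp2 hpℓ
  set χ := chi ℓ ω with hχ
  have hc : ∀ n : ℕ, n.Coprime N → χ (n : ZMod N) = ((ZMod.χ₄ (n : ZMod 4) : ℤ) : ℂ) * ω (n : ZMod ℓ) :=
    fun n hn => chi_natCast ℓ ω n hn
  -- values of the character
  have hχp : χ (p : ZMod N) = 1 := by
    rw [hc p hpN, hωp, ZMod.χ₄_nat_one_mod_four hp4]; simp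
  have hcop1 : Nat.Coprime (1 + 2 * ℓ) N := by
    apply Nat.Coprime.mul_right
    · exact Nat.Coprime.pow_right 2 (Nat.coprime_comm.1
        ((Nat.Prime.coprime_iff_not_dvd Nat.prime_two).2 (by omega)))
    · rw [Nat.coprime_comm, Nat.Prime.coprime_iff_not_dvd hℓp]
      intro h
      have h1 : ℓ ∣ 1 := (Nat.dvd_add_left (dvd_mul_left ℓ 2)).1 h
      exact absurd (Nat.dvd_one.1 h1) (by omega)
  have hχu0 : χ ((1 + 2 * ℓ : ℕ) : ZMod N) = -1 := by
    rw [hc _ hcop1, ZMod.χ₄_nat_three_mod_four (by omega)]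
    push_cast
    rw [ZMod.natCast_self]
    simp
  have hcopm : Nat.Coprime (N - 1) N := by
    rw [Nat.coprime_comm]
    have : N = (N - 1) + 1 := by omega
    nth_rewrite 1 [this]
    simp
  have hχm1 : χ (-1) = -1 := by
    have h1 : ((N - 1 : ℕ) : ZMod N) = -1 := by
      rw [Nat.cast_sub (by omega)]; simp
    rw [← h1, hc _ hcopm, ZMod.χ₄_nat_three_mod_four (by omega)]
    have h2 : ((N - 1 : ℕ) : ZMod ℓ) = -1 := by
      rw [Nat.cast_sub (by omega), hN]; push_cast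
      rw [ZMod.natCast_self]; simp
    rw [h2, hωm]; simp
  have hodd : χ.Odd := hχm1
  obtain ⟨a, ha⟩ := exists_SS_ne_zero χ hodd
  -- the unit `1 + 2 ℓ`
  set u0 : (ZMod N)ˣ := ZMod.unitOfCoprime (1 + 2 * ℓ) hcop1 with hu0
  have hu0v : (u0 : ZMod N) = ((1 + 2 * ℓ : ℕ) : ZMod N) := ZMod.coe_unitOfCoprime _ _
  -- `a` is a unit
  have haN : a = (a.val : ZMod N) := (ZMod.natCast_zmod_val a).symm
  have h2a : ¬ 2 ∣ a.val := by
    rintro ⟨k, hk⟩
    apply ha
    apply SS_eq_zero χ a u0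
    · rw [hu0v, haN, hk, ← Nat.cast_mul]
      have : (1 + 2 * ℓ) * (2 * k) = 2 * k + N * k := by rw [hN]; ring
      rw [this, Nat.cast_add, Nat.cast_mul N, ZMod.natCast_self]; simp
    · rw [hu0v, hχu0]; norm_num
  have hℓa : ¬ ℓ ∣ a.val := by
    rintro ⟨k, hk⟩
    apply ha
    obtain ⟨y, hy⟩ : ∃ y : (ZMod ℓ)ˣ, ω y ≠ 1 := by
      by_contra h
      push Not at h
      apply hω1
      ext u
      rw [h u, MulChar.one_apply_coe]
    have h4ℓ : Nat.Coprime 4 ℓ := by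
      have := (Nat.coprime_primes Nat.prime_two hℓp).2 (by omega)
      exact Nat.Coprime.pow_left 2 this
    obtain ⟨n, hn1, hn2⟩ := Nat.chineseRemainder h4ℓ 1 (y : ZMod ℓ).val
    have hn3 : (n : ZMod ℓ) = y := by
      have h := (ZMod.natCast_eq_natCast_iff _ _ _).2 hn2
      rw [h, ZMod.natCast_zmod_val]
    have hn4 : n % 4 = 1 := hn1
    have hncop : Nat.Coprime n N := by
      apply Nat.Coprime.mul_right
      · exact Nat.Coprime.pow_right 2 (Nat.coprime_comm.1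
          ((Nat.Prime.coprime_iff_not_dvd Nat.prime_two).2 (by omega)))
      · rw [Nat.coprime_comm, Nat.Prime.coprime_iff_not_dvd hℓp]
        intro h
        rw [← ZMod.natCast_eq_zero_iff, hn3] at h
        exact y.ne_zero h
    apply SS_eq_zero χ a (ZMod.unitOfCoprime n hncop)
    · rw [ZMod.coe_unitOfCoprime, haN, hk, ← Nat.cast_mul]
      have h5 : n = 1 + 4 * (n / 4) := by omega
      have : n * (ℓ * k) = ℓ * k + N * ((n / 4) * k) := by
        rw [hN]; nth_rewrite 1 [h5]; ring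
      rw [this, Nat.cast_add, Nat.cast_mul N, ZMod.natCast_self]; simp
    · rw [ZMod.coe_unitOfCoprime, hc n hncop, hn3, ZMod.χ₄_nat_one_mod_four hn4]
      simpa using hy
  have hacop : Nat.Coprime a.val N := by
    apply Nat.Coprime.mul_right
    · exact Nat.Coprime.pow_right 2 (Nat.coprime_comm.1
        ((Nat.Prime.coprime_iff_not_dvd Nat.prime_two).2 h2a))
    · rw [Nat.coprime_comm, Nat.Prime.coprime_iff_not_dvd hℓp]
      exact hℓa
  have hS1 : SS χ 1 ≠ 0 := by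
    rw [SS_unit χ (ZMod.unitOfCoprime _ hacop), ZMod.coe_unitOfCoprime, ← haN]
    refine mul_ne_zero ?_ ha
    rw [haN, ← ZMod.coe_unitOfCoprime _ hacop]
    exact (Units.isUnit _).map χ |>.ne_zero
  -- the weights
  set W : (ZMod N)ˣ → ℂ := fun t => 2 * (expo p N F (t : ZMod N).val : ℂ) - F * N with hWdef
  have hsaw : ∀ (t : (ZMod N)ˣ) (s : ℕ), (saw ((t : ZMod N) * ((p : ZMod N) ^ s)) : ℂ) =
      2 * ((((t : ZMod N).val * p ^ s) % N : ℕ) : ℂ) - N := by
    intro t s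
    have h1 : (t : ZMod N) * ((p : ZMod N) ^ s) ≠ 0 := by
      have h2 : IsUnit ((t : ZMod N) * ((p : ZMod N) ^ s)) :=
        t.isUnit.mul (((ZMod.isUnit_iff_coprime p N).2 hpN).pow s)
      have : Nontrivial (ZMod N) := ZMod.nontrivial_iff.2 (by omega)
      exact h2.ne_zero
    unfold saw
    rw [if_neg h1]
    have h3 : ((t : ZMod N) * ((p : ZMod N) ^ s)).val = ((t : ZMod N).val * p ^ s) % N := by
      rw [← ZMod.val_natCast]
      congr 1
      push_cast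
      rw [ZMod.natCast_zmod_val]
    rw [h3]
    simp only [Int.cast_sub, Int.cast_mul, Int.cast_ofNat, Int.cast_natCast]
  have hFS : (F : ℂ) * SS χ 1 = ∑ t : (ZMod N)ˣ, χ t * W t := by
    have hpu : ∀ s : ℕ, SS χ 1 = ∑ t : (ZMod N)ˣ, χ t * (saw ((t : ZMod N) * ((p : ZMod N) ^ s)) : ℂ) := by
      intro s
      have h1 := SS_unit χ ((ZMod.unitOfCoprime p hpN) ^ s)
      rw [Units.val_pow_eq_pow_val, ZMod.coe_unitOfCoprime, map_pow, hχp, one_pow, one_mul] at h1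
      exact h1
    have h2 : (F : ℂ) * SS χ 1 = ∑ s ∈ range F, SS χ 1 := by
      rw [sum_const, card_range, nsmul_eq_mul]
    rw [h2, sum_congr rfl fun s _ => hpu s, sum_comm]
    refine sum_congr rfl fun t _ => ?_
    rw [← mul_sum]
    congr 1
    rw [sum_congr rfl fun s _ => hsaw t s, sum_sub_distrib, ← mul_sum, sum_const, card_range,
      nsmul_eq_mul, hWdef]
    simp only [expo]
    push_cast
    ring
  have hW' : ∀ t : (ZMod N)ˣ, W (t * u0) = W t := by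
    intro t
    have htcop : Nat.Coprime (t : ZMod N).val N := ZMod.val_coe_unit_coprime t
    have htpos : 0 < (t : ZMod N).val := by
      rcases Nat.eq_zero_or_pos (t : ZMod N).val with h | h
      · rw [h, Nat.coprime_zero_left] at htcop; omega
      · exact h
    have h1 := hW (t : ZMod N).val htpos (ZMod.val_lt _) htcop
    have htodd : (t : ZMod N).val % 2 = 1 := by
      by_contra h
      have h3 : 2 ∣ (t : ZMod N).val := by omega
      have h4 : 2 ∣ N := ⟨2 * ℓ, by rw [hN]; ring⟩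
      have h5 := Nat.dvd_gcd h3 h4
      rw [htcop] at h5
      omega
    have h2 : (((t * u0 : (ZMod N)ˣ)) : ZMod N).val = ((t : ZMod N).val + 2 * ℓ) % N := by
      rw [← ZMod.val_natCast]
      congr 1
      rw [Units.val_mul, hu0v]
      have h3 : (t : ZMod N) = (((t : ZMod N).val : ℕ) : ZMod N) := (ZMod.natCast_zmod_val _).symm
      rw [h3, ZMod.val_natCast, Nat.mod_eq_of_lt (ZMod.val_lt _), ← Nat.cast_mul]
      obtain ⟨k, hk⟩ : ∃ k, (t : ZMod N).val = 2 * k + 1 := ⟨(t : ZMod N).val / 2, by omega⟩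
      rw [hk]
      have h4 : (2 * k + 1) * (1 + 2 * ℓ) = (2 * k + 1 + 2 * ℓ) + N * k := by rw [hN]; ring
      rw [h4, Nat.cast_add, Nat.cast_mul N, ZMod.natCast_self]; simp
    rw [hWdef]
    simp only
    rw [h2, h1]
  have hzero : ∑ t : (ZMod N)ˣ, χ t * W t = 0 := by
    have h1 : ∑ t : (ZMod N)ˣ, χ t * W t = - ∑ t : (ZMod N)ˣ, χ t * W t := by
      conv_lhs => rw [← Equiv.sum_comp (Equiv.mulRight u0)]
      rw [← sum_neg_distrib]
      refine sum_congr rfl fun t _ => ?_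
      simp only [Equiv.coe_mulRight]
      rw [hW', Units.val_mul, map_mul, hu0v, hχu0]
      ring
    have h2 : (2 : ℂ) * ∑ t : (ZMod N)ˣ, χ t * W t = 0 := by linear_combination h1
    exact (mul_eq_zero.1 h2).resolve_left two_ne_zero
  rw [hzero] at hFS
  have hF' : (F : ℂ) ≠ 0 := by exact_mod_cast hF.ne'
  exact hS1 ((mul_eq_zero.1 hFS).resolve_left hF')

end Pool.Agent.Q5.Cheb
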