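import Mathlib

/-!
# Sums over characters of order `4 * ℓ`
-/

set_option autoImplicit false
set_option linter.unusedSectionVars false

namespace Pool.Agent.Q5.Cheb

open Finset Polynomial

section
variable {E : Type} [Field E] [Fintype E] [DecidableEq E]

theorem exists_gen (E : Type) [Field E] [Fintype E] : ∃ g : Eˣ, (∀ x, x ∈ Subgroup.zpowers g) ∧
    (∀ y : E, y ≠ 0 → ∃ a : ℕ, y = (g : E) ^ a) ∧ orderOf g = Fintype.card E - 1 := by
  classical
  obtain ⟨g, hg⟩ := IsCyclic.exists_generator (α := Eˣ)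
  refine ⟨g, hg, ?_, ?_⟩
  · intro y hy
    obtain ⟨a, ha⟩ := (mem_powers_iff_mem_zpowers.2 (hg (Units.mk0 y hy)))
    refine ⟨a, ?_⟩
    have h3 := congrArg (fun u : Eˣ => (u : E)) ha
    simp only [Units.val_pow_eq_pow_val, Units.val_mk0] at h3
    exact h3.symm
  · rw [orderOf_eq_card_of_forall_mem_zpowers hg, Nat.card_eq_fintype_card, Fintype.card_units]

theorem gen_prim {F : Type} [Field F] {g : Eˣ} (hg : ∀ x, x ∈ Subgroup.zpowers g)
    (ξ : MulChar E F) {N : ℕ} (hξ : orderOf ξ = N) : IsPrimitiveRoot (ξ g) N := by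
  have h3 : ∀ m : ℕ, ξ g ^ m = 1 ↔ ξ ^ m = 1 := by
    intro m
    constructor
    · intro h4
      ext u
      obtain ⟨a, ha⟩ := mem_powers_iff_mem_zpowers.2 (hg u)
      rw [← ha]
      simp only [Units.val_pow_eq_pow_val, map_pow, MulChar.pow_apply_coe, h4, one_pow]
      rw [MulChar.one_apply_coe, one_pow]
    · intro h4
      rw [← MulChar.pow_apply_coe, h4, MulChar.one_apply_coe]
  refine ⟨?_, ?_⟩
  · rw [h3, ← hξ, pow_orderOf_eq_one]
  · intro m hm
    rw [h3] at hm
    rw [← hξ]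
    exact orderOf_dvd_of_pow_eq_one hm

/-- The sum of the values of a character with integer weights, as a polynomial. -/
theorem exists_poly (c : E → ℤ) {g : E}
    (hg : ∀ y : E, y ≠ 0 → ∃ a : ℕ, y = g ^ a) :
    ∃ P : ℤ[X], ∀ (K : Type) [Field K] (χ : MulChar E K),
      aeval (χ g) P = ∑ v : E, χ v * (c v : K) := by
  classical
  choose! a ha using hg
  refine ⟨∑ v : E, if v = 0 then 0 else Polynomial.C (c v) * X ^ (a v), ?_⟩
  intro K _ χ
  rw [map_sum]
  refine sum_congr rfl fun v _ => ?_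
  by_cases hv : v = 0
  · rw [if_pos hv, hv, MulChar.map_zero, map_zero, zero_mul]
  · rw [if_neg hv, map_mul, map_pow, aeval_X, aeval_C, ← map_pow, ← ha v hv]
    simp [mul_comm]

/-- Transfer of an integer value between characters of the same order with values in fields of
characteristic zero. -/
theorem transferW {K K' : Type} [Field K] [CharZero K] [Field K'] [CharZero K'] (c : E → ℤ)
    (χ : MulChar E K) (χ' : MulChar E K') {N : ℕ} (hN : 0 < N) (h1 : orderOf χ = N)
    (h2 : orderOf χ' = N) (C : ℤ) (h : ∑ v : E, χ v * (c v : K) = C) :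
    ∑ v : E, χ' v * (c v : K') = C := by
  obtain ⟨g, hg, hg', -⟩ := exists_gen E
  obtain ⟨P, hP⟩ := exists_poly c hg'
  have hp1 := gen_prim hg χ h1
  have hp2 := gen_prim hg χ' h2
  have h5 : aeval (χ g) (P - Polynomial.C C) = 0 := by
    rw [map_sub, hP, h, aeval_C]
    simp
  have h6 : cyclotomic N ℤ ∣ P - Polynomial.C C := by
    rw [cyclotomic_eq_minpoly hp1 hN]
    exact minpoly.isIntegrallyClosed_dvd (hp1.isIntegral hN) h5
  obtain ⟨R, hR⟩ := h6
  have h7 : aeval (χ' g) (P - Polynomial.C C) = 0 := by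
    rw [hR, map_mul]
    have h8 : aeval (χ' g) (cyclotomic N ℤ) = 0 := by
      rw [cyclotomic_eq_minpoly hp2 hN, minpoly.aeval]
    rw [h8, zero_mul]
  rw [map_sub, hP, aeval_C, sub_eq_zero] at h7
  rw [h7]
  simp

/-- The quadratic character with values in a field. -/
noncomputable def eta (E : Type) [Field E] [Fintype E] [DecidableEq E] (K : Type) [Field K] :
    MulChar E K := (quadraticChar E).ringHomComp (Int.castRingHom K)

theorem eta_apply {K : Type} [Field K] (x : E) : eta E K x = ((quadraticChar E x : ℤ) : K) := rfl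

theorem eta_gen (hE : ringChar E ≠ 2) {K : Type} [Field K] {g : Eˣ}
    (hg : ∀ x, x ∈ Subgroup.zpowers g) : eta E K g = -1 := by
  rw [eta_apply]
  rcases quadraticChar_dichotomy g.ne_zero with h | h
  · exfalso
    apply quadraticChar_ne_one hE
    rw [MulChar.eq_iff hg, h, MulChar.one_apply_coe]
  · rw [h]; simp

/-- The character of order two is the quadratic character. -/
theorem eq_eta (hE : ringChar E ≠ 2) {K : Type} [Field K] (χ : MulChar E K)
    (h : orderOf χ = 2) : χ = eta E K := by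
  obtain ⟨g, hg, -, -⟩ := exists_gen E
  rw [MulChar.eq_iff hg, eta_gen hE hg]
  have h1 := gen_prim hg χ h
  have h2 := h1.pow_eq_one
  rw [sq] at h2
  rcases mul_self_eq_one_iff.1 h2 with h3 | h3
  · exact absurd h3 (h1.ne_one (by norm_num))
  · exact h3

/-- Summation over square roots. -/
theorem sum_sq (hE : ringChar E ≠ 2) {K : Type} [Field K] (G : E → K) :
    ∑ y : E, G (y ^ 2) = ∑ z : E, (1 + eta E K z) * G z := by
  classical
  have h1 : ∑ y : E, G (y ^ 2) = ∑ z : E, ∑ y ∈ univ.filter (fun y : E => y ^ 2 = z), G (y ^ 2) :=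
    (sum_fiberwise _ _ _).symm
  rw [h1]
  refine sum_congr rfl fun z _ => ?_
  rw [sum_congr rfl (g := fun _ => G z) (fun y hy => by rw [(mem_filter.1 hy).2]), sum_const,
    nsmul_eq_mul]
  congr 1
  have h2 := quadraticChar_card_sqrts hE z
  have h3 : ({x : E | x ^ 2 = z} : Set E).toFinset = univ.filter (fun y : E => y ^ 2 = z) := by
    ext; simp
  rw [h3] at h2
  have h4 : ((#(univ.filter (fun y : E => y ^ 2 = z)) : ℤ) : K) = ((quadraticChar E z + 1 : ℤ) : K) := by
    rw [h2]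
  push_cast at h4
  rw [h4, eta_apply, add_comm]

/-- The two characters of order four. -/
theorem sum_four (hE : ringChar E ≠ 2) {K : Type} [Field K] (χ : MulChar E K) (hχ : orderOf χ = 4)
    (D : E → K) :
    ∑ z : E, (χ z + χ⁻¹ z) * D z = ∑ y : E, eta E K y * D (y ^ 2) := by
  have h1 : χ ^ 2 = eta E K := by
    apply eq_eta hE
    rw [orderOf_pow, hχ]; norm_num
  have h3 : χ⁻¹ = χ * eta E K := by
    rw [inv_eq_iff_mul_eq_one, ← h1, ← mul_assoc, ← sq, ← pow_add]
    have := pow_orderOf_eq_one χ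
    rwa [hχ] at this
  have h2 := sum_sq hE (fun z => χ z * D z)
  have h4 : ∑ y : E, eta E K y * D (y ^ 2) = ∑ y : E, χ (y ^ 2) * D (y ^ 2) := by
    refine sum_congr rfl fun y _ => ?_
    rw [← h1, map_pow, MulChar.pow_apply' χ two_ne_zero]
  rw [h4, h2]
  refine sum_congr rfl fun z _ => ?_
  rw [h3, MulChar.mul_apply]
  ring

/-- Summation over the powers of a character of order `ℓ`. -/
theorem sum_pow_char {K : Type} [Field K] {ℓ : ℕ} (χ : MulChar E K) (hχ : orderOf χ = ℓ)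
    (hℓ : 0 < ℓ) (D : E → K) (hD : D 0 = 0) :
    ∑ j ∈ range ℓ, ∑ z : E, (χ ^ j) z * D z = ∑ y : E, D (y ^ ℓ) := by
  classical
  obtain ⟨g, hg, hg', hgo⟩ := exists_gen E
  have hpr := gen_prim hg χ hχ
  have hdvd : ℓ ∣ Fintype.card E - 1 := hχ ▸ χ.orderOf_dvd_card_sub_one
  have hker : Nat.card (powMonoidHom ℓ : Eˣ →* Eˣ).ker = ℓ := by
    rw [IsCyclic.card_powMonoidHom_ker, Nat.card_eq_fintype_card, Fintype.card_units,
      Nat.gcd_comm, Nat.gcd_eq_left hdvd]
  rw [sum_comm]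
  have h1 : ∑ y : E, D (y ^ ℓ) = ∑ z : E, ∑ y ∈ univ.filter (fun y : E => y ^ ℓ = z), D (y ^ ℓ) :=
    (sum_fiberwise _ _ _).symm
  rw [h1]
  refine sum_congr rfl fun z _ => ?_
  by_cases hz : z = 0
  · subst hz
    simp only [hD, mul_zero, sum_const_zero]
    symm
    apply sum_eq_zero
    intro y hy
    rw [(mem_filter.1 hy).2, hD]
  rw [sum_congr rfl (g := fun _ => D z) (fun y hy => congrArg D (mem_filter.1 hy).2),
    sum_const (D z), nsmul_eq_mul, ← sum_mul]
  congr 1
  have h2 : ∀ j : ℕ, (χ ^ j) z = χ z ^ j := fun j => MulChar.pow_apply_coe χ j (Units.mk0 z hz)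
  simp only [h2]
  obtain ⟨a, ha⟩ := hg' z hz
  by_cases h3 : χ z = 1
  · simp only [h3, one_pow, sum_const, card_range, nsmul_eq_mul, mul_one]
    rw [ha, map_pow] at h3
    obtain ⟨b, hb⟩ := (hpr.pow_eq_one_iff_dvd a).1 h3
    have h4 : #(univ.filter (fun y : E => y ^ ℓ = z)) = ℓ := by
      conv_rhs => rw [← hker]
      rw [← Fintype.card_coe, ← Nat.card_eq_fintype_card]
      apply Nat.card_congr
      refine
        { toFun := fun y => ⟨Units.mk0 ((y : E) * ((g : E) ^ b)⁻¹) ?_, ?_⟩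
          invFun := fun u => ⟨(u : Eˣ) * (g : E) ^ b, ?_⟩
          left_inv := ?_
          right_inv := ?_ }
      · have hy := (mem_filter.1 y.2).2
        have hy0 : (y : E) ≠ 0 := by
          intro h
          rw [h, zero_pow hℓ.ne'] at hy
          exact hz hy.symm
        exact mul_ne_zero hy0 (inv_ne_zero (pow_ne_zero _ g.ne_zero))
      · have hy := (mem_filter.1 y.2).2
        rw [MonoidHom.mem_ker]
        apply Units.ext
        simp only [powMonoidHom_apply, Units.val_pow_eq_pow_val, Units.val_mk0, Units.val_one]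
        rw [mul_pow, hy, inv_pow, ← pow_mul, ha, hb, mul_comm b ℓ]
        exact mul_inv_cancel₀ (pow_ne_zero _ g.ne_zero)
      · have hu := u.2
        rw [MonoidHom.mem_ker] at hu
        have hu' := congrArg (fun v : Eˣ => (v : E)) hu
        simp only [powMonoidHom_apply, Units.val_pow_eq_pow_val, Units.val_one] at hu'
        rw [mem_filter]
        refine ⟨mem_univ _, ?_⟩
        rw [mul_pow, hu', one_mul, ← pow_mul, ha, hb, mul_comm b ℓ]
      · intro y
        apply Subtype.ext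
        simp only [Units.val_mk0]
        exact inv_mul_cancel_right₀ (pow_ne_zero _ g.ne_zero) _
      · intro u
        apply Subtype.ext
        apply Units.ext
        simp only [Units.val_mk0]
        exact mul_inv_cancel_right₀ (pow_ne_zero _ g.ne_zero) _
    rw [h4]
  · have h4 : #(univ.filter (fun y : E => y ^ ℓ = z)) = 0 := by
      rw [card_eq_zero, filter_eq_empty_iff]
      intro y _ hy
      apply h3
      have hy0 : y ≠ 0 := by
        rintro rfl
        rw [zero_pow hℓ.ne'] at hy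
        exact hz hy.symm
      rw [← hy, map_pow]
      have := MulChar.pow_apply_coe χ ℓ (Units.mk0 y hy0)
      rw [Units.val_mk0] at this
      rw [← this, ← hχ, pow_orderOf_eq_one]
      exact MulChar.one_apply_coe (Units.mk0 y hy0)
    rw [h4]
    have h5 : χ z ^ ℓ = 1 := by
      rw [← h2, ← hχ, pow_orderOf_eq_one]
      exact MulChar.one_apply_coe (Units.mk0 z hz)
    have h6 := mul_geom_sum (χ z) ℓ
    rw [h5, sub_self] at h6
    rw [(mul_eq_zero.1 h6).resolve_left (sub_ne_zero.2 h3)]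
    simp

/-- The sum over the characters of order `4 * ℓ`. -/
theorem sum_order (hE : ringChar E ≠ 2) {ℓ : ℕ} (hℓ : ℓ % 4 = 1) (χ4 χl : MulChar E ℂ)
    (h4 : orderOf χ4 = 4) (hl : orderOf χl = ℓ) (c : E → ℤ) :
    ∑ j ∈ range (ℓ - 1), (∑ z : E, (χ4 * χl ^ (j + 1)) z * (c z : ℂ) +
      ∑ z : E, (χ4⁻¹ * χl ^ (j + 1)) z * (c z : ℂ)) =
    ((∑ y : E, (quadraticChar E y * c (y ^ (2 * ℓ)) - quadraticChar E y * c (y ^ 2)) : ℤ) : ℂ) := by
  have hℓ0 : 0 < ℓ := by omega
  set D : E → ℂ := fun z => (χ4 z + χ4⁻¹ z) * (c z : ℂ) with hD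
  have hD0 : D 0 = 0 := by
    rw [hD]; simp only [MulChar.map_zero, add_zero, zero_mul]
  have h1 := sum_pow_char χl hl hℓ0 D hD0
  have hr : ℓ = (ℓ - 1) + 1 := by omega
  have h2 : ∑ j ∈ range ℓ, ∑ z : E, (χl ^ j) z * D z =
      ∑ j ∈ range (ℓ - 1), ∑ z : E, (χl ^ (j + 1)) z * D z + ∑ z : E, (χl ^ 0) z * D z := by
    conv_lhs => rw [hr]
    exact sum_range_succ' (fun j => ∑ z : E, (χl ^ j) z * D z) (ℓ - 1)
  have h3 : ∑ z : E, (χl ^ 0) z * D z = ∑ y : E, eta E ℂ y * (c (y ^ 2) : ℂ) := by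
    rw [← sum_four hE χ4 h4 (fun z => (c z : ℂ))]
    refine sum_congr rfl fun z _ => ?_
    by_cases hz : z = 0
    · rw [hz]; simp only [MulChar.map_zero, add_zero, zero_mul]
    · rw [pow_zero, show (1 : MulChar E ℂ) z = 1 from MulChar.one_apply_coe (Units.mk0 z hz),
        one_mul]
  have h4' : ∑ y : E, D (y ^ ℓ) = ∑ y : E, eta E ℂ y * (c (y ^ (2 * ℓ)) : ℂ) := by
    have h5 := sum_four hE χ4 h4 (fun y => (c (y ^ ℓ) : ℂ))
    rw [hD]
    simp only
    have h6 : ∀ y : E, (χ4 (y ^ ℓ) + χ4⁻¹ (y ^ ℓ)) = χ4 y + χ4⁻¹ y := by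
      intro y
      have h7 : χ4 ^ ℓ = χ4 := by
        have : ℓ = orderOf χ4 * (ℓ / 4) + 1 := by rw [h4]; omega
        rw [this, pow_succ, pow_mul, pow_orderOf_eq_one, one_pow, one_mul]
      have h8 : χ4⁻¹ ^ ℓ = χ4⁻¹ := by rw [inv_pow, h7]
      rw [map_pow, map_pow, ← MulChar.pow_apply' χ4 hℓ0.ne', ← MulChar.pow_apply' χ4⁻¹ hℓ0.ne',
        h7, h8]
    rw [sum_congr rfl fun y _ => by rw [h6 y], h5]
    refine sum_congr rfl fun y _ => ?_
    rw [← pow_mul]
  have h5 : ∑ j ∈ range (ℓ - 1), (∑ z : E, (χ4 * χl ^ (j + 1)) z * (c z : ℂ) +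
      ∑ z : E, (χ4⁻¹ * χl ^ (j + 1)) z * (c z : ℂ)) =
      ∑ j ∈ range (ℓ - 1), ∑ z : E, (χl ^ (j + 1)) z * D z := by
    refine sum_congr rfl fun j _ => ?_
    rw [← sum_add_distrib]
    refine sum_congr rfl fun z _ => ?_
    rw [MulChar.mul_apply, MulChar.mul_apply, hD]
    ring
  rw [h5]
  have h6 : ∑ j ∈ range (ℓ - 1), ∑ z : E, (χl ^ (j + 1)) z * D z =
      ∑ y : E, eta E ℂ y * (c (y ^ (2 * ℓ)) : ℂ) - ∑ y : E, eta E ℂ y * (c (y ^ 2) : ℂ) := by
    rw [← h4', ← h1, h2, h3]; ring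
  rw [h6, ← sum_sub_distrib, Int.cast_sum]
  refine sum_congr rfl fun y _ => ?_
  rw [eta_apply]; push_cast; ring

end

end Pool.Agent.Q5.Cheb
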