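import Pool.Agent.Q5.Cheb.Chars

/-!
# Sums over `t + 1/t`
-/

set_option autoImplicit false
set_option linter.unusedSectionVars false

namespace Pool.Agent.Q5.Cheb

open Finset Polynomial

section
variable {F : Type} [Field F] [Fintype F] [DecidableEq F]
variable {K : Type} [Field K] [Fintype K] [DecidableEq K] [Algebra F K]

theorem card_K (h2 : Module.finrank F K = 2) : Fintype.card K = Fintype.card F ^ 2 := by
  rw [Module.card_eq_pow_finrank (K := F) (V := K), h2]

theorem alg_tr (h2 : Module.finrank F K = 2) (z : K) :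
    algebraMap F K (Algebra.trace F K z) = z + z ^ Fintype.card F := by
  rw [FiniteField.algebraMap_trace_eq_sum_pow, h2, Nat.card_eq_fintype_card]
  simp [sum_range_succ]

theorem alg_norm (h2 : Module.finrank F K = 2) (z : K) :
    algebraMap F K (Algebra.norm F z) = z ^ (Fintype.card F + 1) := by
  rw [FiniteField.algebraMap_norm_eq_pow_sum, h2, Nat.card_eq_fintype_card]
  congr 1
  simp [sum_range_succ]
  ring

theorem int_inj {L : Type} [Field L] (hL : ringChar L ≠ 2) : ∀ a b : ℤ, (a = 1 ∨ a = -1) →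
    (b = 1 ∨ b = -1) → (a : L) = (b : L) → a = b := by
  intro a b ha hb hab
  have h11 : (1 : L) ≠ -1 := fun h => (Ring.neg_one_ne_one_of_char_ne_two hL) h.symm
  rcases ha with rfl | rfl <;> rcases hb with rfl | rfl
  · rfl
  · push_cast at hab
    exact absurd hab h11
  · push_cast at hab
    exact absurd hab.symm h11
  · rfl

theorem odd_card (hF : ringChar F ≠ 2) : Fintype.card F % 2 = 1 :=
  FiniteField.odd_card_of_char_ne_two hF

theorem chi_norm (h2 : Module.finrank F K = 2) (hF : ringChar F ≠ 2) (y : K) :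
    quadraticChar F (Algebra.norm F y) = quadraticChar K y := by
  have hK : ringChar K ≠ 2 := by rwa [← Algebra.ringChar_eq F K]
  by_cases hy : y = 0
  · rw [hy, Algebra.norm_zero, MulChar.map_zero, MulChar.map_zero]
  have hn : Algebra.norm F y ≠ 0 := by
    rwa [Ne, Algebra.norm_eq_zero_iff]
  apply int_inj hK _ _ (quadraticChar_dichotomy hn) (quadraticChar_dichotomy hy)
  have h1 := quadraticChar_eq_pow_of_char_ne_two' hF (Algebra.norm F y)
  have h3 := quadraticChar_eq_pow_of_char_ne_two' hK y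
  rw [h3, ← map_intCast (algebraMap F K), h1, map_pow, alg_norm h2, ← pow_mul, card_K h2]
  congr 1
  have h4 := odd_card hF
  obtain ⟨k, hk⟩ : ∃ k, Fintype.card F = 2 * k + 1 := ⟨Fintype.card F / 2, by omega⟩
  rw [hk]
  have h5 : (2 * k + 1) / 2 = k := by omega
  have h6 : (2 * k + 1) ^ 2 = 2 * (2 * k ^ 2 + 2 * k) + 1 := by ring
  rw [h5, h6]
  have h7 : (2 * (2 * k ^ 2 + 2 * k) + 1) / 2 = 2 * k ^ 2 + 2 * k := by omega
  rw [h7]
  ring

theorem exists_theta (h2 : Module.finrank F K = 2) (hF : ringChar F ≠ 2) :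
    ∃ (ν : F) (θ : K), quadraticChar F ν = -1 ∧ θ ^ 2 = algebraMap F K ν ∧
      θ ^ Fintype.card F = -θ := by
  obtain ⟨ν, hν⟩ := quadraticChar_exists_neg_one hF
  have hν0 : ν ≠ 0 := by
    rintro rfl
    rw [MulChar.map_zero] at hν
    norm_num at hν
  have hK : ringChar K ≠ 2 := by rwa [← Algebra.ringChar_eq F K]
  have h3 : (algebraMap F K ν) ≠ 0 := by rwa [Ne, FaithfulSMul.algebraMap_eq_zero_iff]
  have h4 := odd_card hF
  obtain ⟨k, hk⟩ : ∃ k, Fintype.card F = 2 * k + 1 := ⟨Fintype.card F / 2, by omega⟩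
  have hsq : IsSquare (algebraMap F K ν) := by
    rw [FiniteField.isSquare_iff hK h3, card_K h2, ← map_pow]
    have h5 : Fintype.card F ^ 2 / 2 = (Fintype.card F - 1) * (k + 1) := by
      rw [hk]
      have h6 : (2 * k + 1) ^ 2 = 2 * (2 * k ^ 2 + 2 * k) + 1 := by ring
      have h7 : 2 * k + 1 - 1 = 2 * k := by omega
      have h8 : (2 * (2 * k ^ 2 + 2 * k) + 1) / 2 = 2 * k ^ 2 + 2 * k := by omega
      rw [h6, h7, h8]
      ring
    rw [h5, pow_mul, FiniteField.pow_card_sub_one_eq_one ν hν0, one_pow, map_one]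
  obtain ⟨θ, hθ⟩ := hsq
  rw [← sq] at hθ
  refine ⟨ν, θ, hν, hθ.symm, ?_⟩
  have h5 := quadraticChar_eq_pow_of_char_ne_two' hF ν
  rw [hν] at h5
  have h6 : Fintype.card F = 2 * (Fintype.card F / 2) + 1 := by omega
  rw [h6, pow_succ, pow_mul, ← hθ, ← map_pow, ← h5]
  simp

theorem sum_decomp (h2 : Module.finrank F K = 2) (hF : ringChar F ≠ 2) {θ : K}
    (hθ0 : θ ≠ 0) (hθ : θ ^ Fintype.card F = -θ) (G : K → ℤ) :
    ∑ t : K, G t = ∑ a : F, ∑ b : F, G (algebraMap F K a + algebraMap F K b * θ) := by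
  have hinj : Function.Injective
      (fun ab : F × F => algebraMap F K ab.1 + algebraMap F K ab.2 * θ) := by
    rintro ⟨a, b⟩ ⟨c, d⟩ h
    simp only at h
    have h3 : algebraMap F K (b - d) * θ = algebraMap F K (c - a) := by
      rw [map_sub, map_sub]; linear_combination h
    have h4 : b - d = 0 := by
      by_contra hbd
      have h5 : θ = algebraMap F K ((b - d)⁻¹ * (c - a)) := by
        rw [map_mul, ← h3, ← mul_assoc, ← map_mul, inv_mul_cancel₀ hbd, map_one, one_mul]
      rw [h5, ← map_pow, FiniteField.pow_card] at hθ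
      rw [← h5] at hθ
      have h6 : (2 : K) * θ = 0 := by linear_combination hθ
      have hK : ringChar K ≠ 2 := by rwa [← Algebra.ringChar_eq F K]
      have h7 : (2 : K) ≠ 0 := Ring.two_ne_zero hK
      exact hθ0 ((mul_eq_zero.1 h6).resolve_left h7)
    have h5 : c - a = 0 := by
      rw [h4, map_zero, zero_mul] at h3
      exact (FaithfulSMul.algebraMap_eq_zero_iff F K).1 h3.symm
    rw [sub_eq_zero] at h4 h5
    rw [h4, h5]
  have hbij : Function.Bijective
      (fun ab : F × F => algebraMap F K ab.1 + algebraMap F K ab.2 * θ) := by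
    rw [Fintype.bijective_iff_injective_and_card]
    refine ⟨hinj, ?_⟩
    rw [Fintype.card_prod, card_K h2, sq]
  rw [← hbij.sum_comp G, Fintype.sum_prod_type]

theorem card_sq (hF : ringChar F ≠ 2) (e : F) :
    ((#(univ.filter (fun b : F => b ^ 2 = e)) : ℕ) : ℤ) = 1 + quadraticChar F e := by
  have h2 := quadraticChar_card_sqrts hF e
  have h3 : ({x : F | x ^ 2 = e} : Set F).toFinset = univ.filter (fun y : F => y ^ 2 = e) := by
    ext; simp
  rw [h3] at h2
  rw [h2, add_comm]

theorem card_nsq (hF : ringChar F ≠ 2) {ν : F} (hν : quadraticChar F ν = -1) (e : F) :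
    ((#(univ.filter (fun b : F => ν * b ^ 2 = e)) : ℕ) : ℤ) = 1 - quadraticChar F e := by
  have hν0 : ν ≠ 0 := by
    rintro rfl
    rw [MulChar.map_zero] at hν
    norm_num at hν
  have h1 : univ.filter (fun b : F => ν * b ^ 2 = e) = univ.filter (fun b : F => b ^ 2 = ν⁻¹ * e) := by
    ext b
    simp only [mem_filter, mem_univ, true_and]
    constructor
    · intro h
      rw [← h, ← mul_assoc, inv_mul_cancel₀ hν0, one_mul]
    · intro h
      rw [h, ← mul_assoc, mul_inv_cancel₀ hν0, one_mul]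
  have h2 : quadraticChar F ν⁻¹ = -1 := by
    have h3 : quadraticChar F ν⁻¹ * quadraticChar F ν = 1 := by
      rw [← map_mul, inv_mul_cancel₀ hν0, map_one]
    rw [hν] at h3
    linarith
  rw [h1, card_sq hF, map_mul, h2]
  ring

/-- The norm one group. -/
def mu (F K : Type) [Field F] [Fintype F] [Field K] [Fintype K] [DecidableEq K] : Finset K :=
  univ.filter (fun t : K => t ^ (Fintype.card F + 1) = 1)

theorem sum_mu (h2 : Module.finrank F K = 2) (hF : ringChar F ≠ 2) (h : F → ℤ) :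
    ∑ t ∈ mu F K, h (Algebra.trace F K t) = ∑ a : F, (1 - quadraticChar F (a ^ 2 - 1)) * h (2 * a) := by
  obtain ⟨ν, θ, hν, hθ2, hθ⟩ := exists_theta (K := K) h2 hF
  have hν0 : ν ≠ 0 := by
    rintro rfl
    rw [MulChar.map_zero] at hν
    norm_num at hν
  have hθ0 : θ ≠ 0 := by
    rintro rfl
    rw [zero_pow two_ne_zero] at hθ2
    exact hν0 ((FaithfulSMul.algebraMap_eq_zero_iff F K).1 hθ2.symm)
  unfold mu
  rw [sum_filter, sum_decomp h2 hF hθ0 hθ]
  refine sum_congr rfl fun a _ => ?_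
  have h3 : ∀ b : F, (algebraMap F K a + algebraMap F K b * θ) ^ (Fintype.card F) =
      algebraMap F K a - algebraMap F K b * θ := by
    intro b
    obtain ⟨p, hp⟩ := CharP.exists F
    have := hp
    obtain ⟨n, hn, hn2⟩ := FiniteField.card F p
    have : Fact p.Prime := ⟨hn⟩
    have : CharP K p := charP_of_injective_algebraMap (algebraMap F K).injective p
    have h4 := add_pow_char_pow (p := p) (n := n) (algebraMap F K a) (algebraMap F K b * θ)
    rw [← hn2, mul_pow, hθ, ← map_pow, ← map_pow, FiniteField.pow_card, FiniteField.pow_card] at h4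
    rw [h4]; ring
  have h4 : ∀ b : F, ((algebraMap F K a + algebraMap F K b * θ) ^ (Fintype.card F + 1) = 1 ↔
      ν * b ^ 2 = a ^ 2 - 1) := by
    intro b
    rw [pow_succ, h3]
    have h5 : (algebraMap F K a - algebraMap F K b * θ) * (algebraMap F K a + algebraMap F K b * θ) =
        algebraMap F K (a ^ 2 - ν * b ^ 2) := by
      rw [map_sub, map_mul, map_pow, map_pow, ← hθ2]; ring
    rw [h5, ← map_one (algebraMap F K), (algebraMap F K).injective.eq_iff]
    constructor
    · intro h; linear_combination -h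
    · intro h; linear_combination -h
  have h5 : ∀ b : F, Algebra.trace F K (algebraMap F K a + algebraMap F K b * θ) = 2 * a := by
    intro b
    apply (algebraMap F K).injective
    rw [alg_tr h2, h3, map_mul, map_ofNat]
    ring
  simp only [h4, h5]
  rw [← sum_filter, sum_const, nsmul_eq_mul, card_nsq hF hν]

theorem sum_star (hF : ringChar F ≠ 2) (h : F → ℤ) :
    ∑ t ∈ univ.filter (fun t : F => t ≠ 0), h (t + t⁻¹) =
      ∑ a : F, (1 + quadraticChar F (a ^ 2 - 1)) * h (2 * a) := by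
  have h20 : (2 : F) ≠ 0 := Ring.two_ne_zero hF
  have h1 : ∑ t ∈ univ.filter (fun t : F => t ≠ 0), h (t + t⁻¹) =
      ∑ a : F, ∑ t ∈ (univ.filter (fun t : F => t ≠ 0)).filter (fun t => (t + t⁻¹) / 2 = a),
        h (t + t⁻¹) := (sum_fiberwise _ _ _).symm
  rw [h1]
  refine sum_congr rfl fun a _ => ?_
  have h3 : (univ.filter (fun t : F => t ≠ 0)).filter (fun t => (t + t⁻¹) / 2 = a) =
      univ.filter (fun t : F => (t - a) ^ 2 = a ^ 2 - 1) := by
    ext t
    simp only [mem_filter, mem_univ, true_and]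
    constructor
    · rintro ⟨ht, h⟩
      rw [div_eq_iff h20] at h
      have h5 : t * t⁻¹ = 1 := mul_inv_cancel₀ ht
      linear_combination t * h - h5
    · intro h
      have ht : t ≠ 0 := by
        rintro rfl
        have : (1 : F) = 0 := by linear_combination h
        exact one_ne_zero this
      refine ⟨ht, ?_⟩
      rw [div_eq_iff h20]
      have h5 : t * t⁻¹ = 1 := mul_inv_cancel₀ ht
      apply mul_left_cancel₀ ht
      linear_combination h + h5
  rw [h3]
  have h4 : ∀ t ∈ univ.filter (fun t : F => (t - a) ^ 2 = a ^ 2 - 1), h (t + t⁻¹) = h (2 * a) := by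
    intro t ht
    rw [← h3] at ht
    have h5 := (mem_filter.1 ht).2
    rw [div_eq_iff h20] at h5
    rw [h5, mul_comm]
  rw [sum_congr rfl h4, sum_const, nsmul_eq_mul]
  congr 1
  rw [← card_sq hF]
  congr 1
  apply card_bij (fun t _ => t - a)
  · intro t ht
    simpa using ht
  · intro t _ s _ hts
    linear_combination hts
  · intro b hb
    refine ⟨b + a, ?_, by ring⟩
    simpa using hb

theorem sum_both (h2 : Module.finrank F K = 2) (hF : ringChar F ≠ 2) (h : F → ℤ) :
    ∑ t ∈ univ.filter (fun t : F => t ≠ 0), h (t + t⁻¹) +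
      ∑ t ∈ mu F K, h (Algebra.trace F K t) = 2 * ∑ x : F, h x := by
  rw [sum_star hF, sum_mu h2 hF, ← sum_add_distrib]
  have h20 : (2 : F) ≠ 0 := Ring.two_ne_zero hF
  have h1 : ∑ x : F, h x = ∑ a : F, h (2 * a) :=
    (Equiv.sum_comp (Equiv.mulLeft₀ (2 : F) h20) h).symm
  rw [h1, mul_sum]
  refine sum_congr rfl fun a _ => ?_
  ring

/-- The quadratic characters at `y²` and at `y^(Q-1)`. -/
theorem chi_tr (h2 : Module.finrank F K = 2) (hF : ringChar F ≠ 2) {y : K} (hy : y ≠ 0) :
    quadraticChar K y * quadraticChar F (Algebra.trace F K (y ^ 2)) =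
      quadraticChar F (Algebra.trace F K (y ^ (Fintype.card F - 1))) := by
  set Q := Fintype.card F with hQ
  have hQ1 : 1 < Q := Fintype.one_lt_card
  have h1 : Algebra.norm F y * Algebra.trace F K (y ^ (Q - 1)) = Algebra.trace F K (y ^ 2) := by
    apply (algebraMap F K).injective
    rw [map_mul, alg_norm h2, alg_tr h2, alg_tr h2, ← hQ]
    have h3 : y ^ (Q ^ 2) = y := by
      rw [← card_K (K := K) h2, FiniteField.pow_card]
    have h4 : y ^ (Q + 1) * (y ^ (Q - 1)) ^ Q = y ^ 2 := by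
      rw [← pow_mul, ← pow_add]
      have h5 : Q + 1 + (Q - 1) * Q = Q ^ 2 + 1 := by
        obtain ⟨k, hk⟩ : ∃ k, Q = k + 1 := ⟨Q - 1, by omega⟩
        rw [hk, Nat.add_sub_cancel]; ring
      rw [h5, pow_succ, h3, sq]
    have h5 : y ^ (Q + 1) * y ^ (Q - 1) = (y ^ 2) ^ Q := by
      rw [← pow_mul, ← pow_add]
      congr 1
      omega
    rw [mul_add, h4, h5, add_comm]
  rw [← h1, map_mul, chi_norm h2 hF, ← mul_assoc, ← sq, quadraticChar_sq_one hy, one_mul]

/-- Summation over `y^(Q-1)`. -/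
theorem sum_pow_sub_one (h2 : Module.finrank F K = 2) (G : K → ℤ) :
    ∑ y ∈ univ.filter (fun y : K => y ≠ 0), G (y ^ (Fintype.card F - 1)) =
      ((Fintype.card F : ℤ) - 1) * ∑ t ∈ mu F K, G t := by
  set Q := Fintype.card F with hQ
  have hQ1 : 1 < Q := Fintype.one_lt_card
  obtain ⟨g, hg, hg', hgo⟩ := exists_gen K
  have hfac : Fintype.card K - 1 = (Q - 1) * (Q + 1) := by
    rw [card_K (F := F) (K := K) h2, ← hQ]
    obtain ⟨k, hk⟩ : ∃ k, Q = k + 1 := ⟨Q - 1, by omega⟩
    rw [hk, Nat.add_sub_cancel]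
    have : (k + 1) ^ 2 = k * (k + 1 + 1) + 1 := by ring
    omega
  have hker : Nat.card (powMonoidHom (Q - 1) : Kˣ →* Kˣ).ker = Q - 1 := by
    rw [IsCyclic.card_powMonoidHom_ker, Nat.card_eq_fintype_card, Fintype.card_units,
      Nat.gcd_comm, Nat.gcd_eq_left (hfac ▸ dvd_mul_right _ _)]
  have hmaps : ∀ y ∈ univ.filter (fun y : K => y ≠ 0), y ^ (Q - 1) ∈ mu F K := by
    intro y hy
    have hy0 : y ≠ 0 := (mem_filter.1 hy).2
    unfold mu
    rw [mem_filter]
    refine ⟨mem_univ _, ?_⟩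
    rw [← pow_mul, ← hQ, ← hfac, FiniteField.pow_card_sub_one_eq_one y hy0]
  rw [← sum_fiberwise_of_maps_to hmaps, mul_sum]
  refine sum_congr rfl fun t ht => ?_
  rw [sum_congr rfl (fun y hy => congrArg G (mem_filter.1 hy).2), sum_const, nsmul_eq_mul]
  congr 1
  have ht' : t ^ (Q + 1) = 1 := (mem_filter.1 ht).2
  have ht0 : t ≠ 0 := by
    rintro rfl
    rw [zero_pow (by omega)] at ht'
    exact zero_ne_one ht'
  obtain ⟨a, ha⟩ := hg' t ht0
  have h3 : (Q - 1) ∣ a := by
    have h4 : (Q - 1) * (Q + 1) ∣ a * (Q + 1) := by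
      rw [← hfac, ← hgo]
      apply orderOf_dvd_of_pow_eq_one
      apply Units.ext
      rw [Units.val_pow_eq_pow_val, pow_mul, ← ha, ht', Units.val_one]
    exact Nat.dvd_of_mul_dvd_mul_right (by omega) h4
  obtain ⟨b, hb⟩ := h3
  have h4 : #((univ.filter (fun y : K => y ≠ 0)).filter (fun y : K => y ^ (Q - 1) = t)) = Q - 1 := by
    conv_rhs => rw [← hker]
    rw [← Fintype.card_coe, ← Nat.card_eq_fintype_card]
    apply Nat.card_congr
    refine
      { toFun := fun y => ⟨Units.mk0 ((y : K) * ((g : K) ^ b)⁻¹) ?_, ?_⟩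
        invFun := fun u => ⟨(u : Kˣ) * (g : K) ^ b, ?_⟩
        left_inv := ?_
        right_inv := ?_ }
    · exact mul_ne_zero (mem_filter.1 (mem_filter.1 y.2).1).2
        (inv_ne_zero (pow_ne_zero _ g.ne_zero))
    · have hy := (mem_filter.1 y.2).2
      rw [MonoidHom.mem_ker]
      apply Units.ext
      simp only [powMonoidHom_apply, Units.val_pow_eq_pow_val, Units.val_mk0, Units.val_one]
      rw [mul_pow, hy, inv_pow, ← pow_mul, ha, hb, mul_comm b]
      exact mul_inv_cancel₀ (pow_ne_zero _ g.ne_zero)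
    · have hu := u.2
      rw [MonoidHom.mem_ker] at hu
      have hu' := congrArg (fun v : Kˣ => (v : K)) hu
      simp only [powMonoidHom_apply, Units.val_pow_eq_pow_val, Units.val_one] at hu'
      rw [mem_filter, mem_filter]
      refine ⟨⟨mem_univ _, ?_⟩, ?_⟩
      · exact mul_ne_zero (Units.ne_zero _) (pow_ne_zero _ g.ne_zero)
      · rw [mul_pow, hu', one_mul, ← pow_mul, ha, hb, mul_comm b]
    · intro y
      apply Subtype.ext
      simp only [Units.val_mk0]
      exact inv_mul_cancel_right₀ (pow_ne_zero _ g.ne_zero) _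
    · intro u
      apply Subtype.ext
      apply Units.ext
      simp only [Units.val_mk0]
      exact mul_inv_cancel_right₀ (pow_ne_zero _ g.ne_zero) _
  rw [h4]
  push_cast [Nat.cast_sub hQ1.le]
  ring

/-- Raising to a power prime to the order is a bijection of the norm one group. -/
theorem sum_mu_pow {n : ℕ} (hn : Nat.Coprime n (Fintype.card F + 1)) (G : K → ℤ) :
    ∑ t ∈ mu F K, G (t ^ n) = ∑ t ∈ mu F K, G t := by
  obtain ⟨m, -, hm⟩ := Nat.exists_mul_mod_eq_one_of_coprime hn (by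
    have : 1 < Fintype.card F := Fintype.one_lt_card
    omega)
  have hkey : ∀ t ∈ mu F K, t ^ (n * m) = t := by
    intro t ht
    have ht' : t ^ (Fintype.card F + 1) = 1 := (mem_filter.1 ht).2
    rw [← Nat.div_add_mod (n * m) (Fintype.card F + 1), hm, pow_add, pow_mul, ht', one_pow,
      one_mul, pow_one]
  have hmem : ∀ (k : ℕ), ∀ t ∈ mu F K, t ^ k ∈ mu F K := by
    intro k t ht
    have ht' : t ^ (Fintype.card F + 1) = 1 := (mem_filter.1 ht).2
    unfold mu
    rw [mem_filter]
    exact ⟨mem_univ _, by rw [← pow_mul, mul_comm, pow_mul, ht', one_pow]⟩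
  apply sum_nbij' (fun t => t ^ n) (fun t => t ^ m)
  · exact hmem n
  · exact hmem m
  · intro t ht
    rw [← pow_mul, hkey t ht]
  · intro t ht
    rw [← pow_mul, mul_comm, hkey t ht]
  · intro t _; rfl

theorem sum_star_pow (hF : ringChar F ≠ 2) {n : ℕ} (hn : Nat.Coprime n (Fintype.card F - 1))
    (G : F → ℤ) :
    ∑ t ∈ univ.filter (fun t : F => t ≠ 0), G (t ^ n) =
      ∑ t ∈ univ.filter (fun t : F => t ≠ 0), G t := by
  have hQ1 : 1 < Fintype.card F := Fintype.one_lt_card
  have hQ2 := odd_card hF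
  obtain ⟨m, -, hm⟩ := Nat.exists_mul_mod_eq_one_of_coprime hn (by omega)
  obtain ⟨c, hc⟩ : ∃ c, n * m = 1 + c * (Fintype.card F - 1) := by
    refine ⟨n * m / (Fintype.card F - 1), ?_⟩
    have := Nat.div_add_mod (n * m) (Fintype.card F - 1)
    rw [hm] at this
    rw [mul_comm (n * m / _)]
    omega
  have hkey : ∀ t : F, t ≠ 0 → t ^ (n * m) = t := by
    intro t ht
    rw [hc, pow_add, mul_comm c, pow_mul, FiniteField.pow_card_sub_one_eq_one t ht, one_pow,
      mul_one, pow_one]
  have hmem : ∀ (k : ℕ), ∀ t ∈ univ.filter (fun t : F => t ≠ 0),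
      t ^ k ∈ univ.filter (fun t : F => t ≠ 0) := by
    intro k t ht
    rw [mem_filter] at ht ⊢
    exact ⟨mem_univ _, pow_ne_zero _ ht.2⟩
  apply sum_nbij' (fun t => t ^ n) (fun t => t ^ m)
  · exact hmem n
  · exact hmem m
  · intro t ht
    rw [← pow_mul, hkey t (mem_filter.1 ht).2]
  · intro t ht
    rw [← pow_mul, mul_comm, hkey t (mem_filter.1 ht).2]
  · intro t _; rfl

end

end Pool.Agent.Q5.Cheb
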