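import Pool.Agent.Q5.Cheb.Count

/-!
# The Gauss sums attached to the two kinds of sums
-/

set_option autoImplicit false
set_option linter.unusedSectionVars false

namespace Pool.Agent.Q5.Cheb

open Finset Polynomial

section
variable {E : Type} [Field E] [Fintype E] [DecidableEq E]

theorem norm_gaussC (χ : MulChar E ℂ) (hχ : χ ≠ 1) {ψ : AddChar E ℂ} (hψ : ψ.IsPrimitive) :
    ‖gaussSum χ ψ‖ ^ 2 = Fintype.card E := by
  have h1 := gaussSum_mul_gaussSum_eq_card hχ hψ
  rw [← star_gaussSum_eq] at h1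
  have h2 : ((‖gaussSum χ ψ‖ ^ 2 : ℝ) : ℂ) = ((Fintype.card E : ℝ) : ℂ) := by
    rw [← Complex.normSq_eq_norm_sq, Complex.normSq_eq_conj_mul_self, mul_comm]
    exact_mod_cast h1
  exact_mod_cast h2

theorem eta_inv {L : Type} [Field L] : (eta E L)⁻¹ = eta E L := by
  rw [inv_eq_iff_mul_eq_one]
  ext u
  rw [MulChar.mul_apply, MulChar.one_apply_coe, eta_apply, ← Int.cast_mul, ← sq,
    quadraticChar_sq_one u.ne_zero, Int.cast_one]

theorem eta_ne_one (hE : ringChar E ≠ 2) {L : Type} [Field L] [CharZero L] : eta E L ≠ 1 := by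
  obtain ⟨a, ha⟩ := quadraticChar_exists_neg_one' hE
  intro h
  have h1 : eta E L a = 1 := by rw [h, MulChar.one_apply_coe]
  rw [eta_apply, ha] at h1
  have h2 : ((-1 : ℤ) : L) = ((1 : ℤ) : L) := by rw [h1]; simp
  have h3 : (-1 : ℤ) = 1 := by exact_mod_cast h2
  norm_num at h3

/-- The Jacobi sum as a weighted sum. -/
theorem gaussB {L : Type} [Field L] (Φ : MulChar E L) (hΦ : Φ * eta E L ≠ 1)
    (ψ : AddChar E L) :
    gaussSum (Φ * eta E L) ψ * (∑ v : E, Φ v * ((quadraticChar E (1 + v) : ℤ) : L)) =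
      Φ (-1) * (gaussSum Φ ψ * gaussSum (eta E L) ψ) := by
  rw [← jacobiSum_mul_nontrivial hΦ ψ]
  have h1 : ∑ v : E, Φ v * ((quadraticChar E (1 + v) : ℤ) : L) =
      Φ (-1) * jacobiSum Φ (eta E L) := by
    unfold jacobiSum
    rw [mul_sum, ← Equiv.sum_comp (Equiv.neg E)]
    refine sum_congr rfl fun v _ => ?_
    rw [Equiv.neg_apply, ← mul_assoc, ← map_mul, neg_one_mul, eta_apply, ← sub_eq_add_neg]
  rw [h1]; ring

end

section
variable {F : Type} [Field F] [Fintype F] [DecidableEq F]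
variable {K : Type} [Field K] [Fintype K] [DecidableEq K] [Algebra F K]

theorem gaussA (hF : ringChar F ≠ 2) {L : Type} [Field L] [CharZero L]
    (Φ : MulChar K L) (hΦ : ∀ r : F, r ≠ 0 → Φ (algebraMap F K r) = ((quadraticChar F r : ℤ) : L))
    (ψF : AddChar F L) (ψK : AddChar K L) (hψ : ∀ z, ψK z = ψF (Algebra.trace F K z)) :
    (∑ z : K, Φ z * ((quadraticChar F (Algebra.trace F K z) : ℤ) : L)) * gaussSum (eta F L) ψF =
      ((Fintype.card F : L) - 1) * gaussSum Φ ψK := by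
  have h1 : ∀ a : F, ((quadraticChar F a : ℤ) : L) * gaussSum (eta F L) ψF =
      ∑ r : F, eta F L r * ψF (a * r) := by
    intro a
    have h0 : ∑ r : F, eta F L r * ψF (a * r) = gaussSum (eta F L) (AddChar.mulShift ψF a) := rfl
    rw [h0]
    by_cases ha : a = 0
    · subst ha
      rw [AddChar.mulShift_zero, gaussSum_one_right (eta_ne_one hF), MulChar.map_zero]
      simp
    · rw [show gaussSum (eta F L) (AddChar.mulShift ψF a) = (eta F L)⁻¹ a * gaussSum (eta F L) ψF from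
        gaussSum_mulShift_eq (eta F L) ψF (Units.mk0 a ha), eta_inv, eta_apply]
  have h2 : (∑ z : K, Φ z * ((quadraticChar F (Algebra.trace F K z) : ℤ) : L)) *
      gaussSum (eta F L) ψF = ∑ r : F, ∑ z : K, eta F L r * (Φ z * ψK (algebraMap F K r * z)) := by
    rw [sum_mul, sum_comm]
    refine sum_congr rfl fun z _ => ?_
    rw [mul_assoc, h1, mul_sum]
    refine sum_congr rfl fun r _ => ?_
    rw [hψ, ← Algebra.smul_def, map_smul, smul_eq_mul, mul_comm r]
    ring
  rw [h2]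
  have h3 : ∀ r ∈ univ.filter (fun r : F => r ≠ 0),
      ∑ z : K, eta F L r * (Φ z * ψK (algebraMap F K r * z)) = gaussSum Φ ψK := by
    intro r hr
    have hr0 : r ≠ 0 := (mem_filter.1 hr).2
    have hr1 : algebraMap F K r ≠ 0 := by rwa [Ne, FaithfulSMul.algebraMap_eq_zero_iff]
    have h4 := gaussSum_mulShift Φ ψK (Units.mk0 _ hr1)
    rw [Units.val_mk0, hΦ r hr0] at h4
    rw [← h4, gaussSum, mul_sum]
    refine sum_congr rfl fun z _ => ?_
    rw [AddChar.mulShift_apply, eta_apply]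
  have h5 : ∑ r : F, ∑ z : K, eta F L r * (Φ z * ψK (algebraMap F K r * z)) =
      ∑ r ∈ univ.filter (fun r : F => r ≠ 0),
        ∑ z : K, eta F L r * (Φ z * ψK (algebraMap F K r * z)) := by
    rw [sum_filter]
    refine sum_congr rfl fun r _ => ?_
    by_cases hr : r = 0
    · rw [if_neg (not_not.2 hr), hr]
      apply sum_eq_zero
      intro z _
      rw [MulChar.map_zero, zero_mul]
    · rw [if_pos hr]
  rw [h5, sum_congr rfl h3, sum_const, nsmul_eq_mul]
  congr 1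
  have h6 : #(univ.filter (fun r : F => r ≠ 0)) = Fintype.card F - 1 := by
    rw [← Finset.card_univ, ← card_erase_of_mem (mem_univ (0 : F))]
    congr 1
    ext; simp
  rw [h6, Nat.cast_sub Fintype.card_pos]
  simp

/-- The restriction to the base field. -/
theorem restrict (h2 : Module.finrank F K = 2) (hF : ringChar F ≠ 2) {L : Type} [Field L]
    (Φ : MulChar K L) {ℓ : ℕ} (hℓ0 : 0 < ℓ) (hΦ : orderOf Φ = 4 * ℓ)
    (hd : ∃ m, Fintype.card F + 1 = (2 * ℓ) * (2 * m + 1)) (r : F) (hr : r ≠ 0) :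
    Φ (algebraMap F K r) = ((quadraticChar F r : ℤ) : L) := by
  have hK : ringChar K ≠ 2 := by rwa [← Algebra.ringChar_eq F K]
  obtain ⟨y, hy⟩ := FiniteField.norm_surjective F K r
  obtain ⟨m, hm⟩ := hd
  have hy0 : y ≠ 0 := by
    rintro rfl
    rw [Algebra.norm_zero] at hy
    exact hr hy.symm
  have h3 : Φ ^ (2 * ℓ) = eta K L := by
    apply eq_eta hK
    rw [orderOf_pow_of_dvd (by omega) (hΦ ▸ ⟨2, by ring⟩), hΦ]
    have : 4 * ℓ = 2 * (2 * ℓ) := by ring
    rw [this, Nat.mul_div_cancel _ (by omega)]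
  rw [← hy, alg_norm h2, chi_norm h2 hF, hm, ← eta_apply, ← h3, pow_mul, map_pow, map_pow]
  have h4 : Φ y ^ (2 * ℓ) = (Φ ^ (2 * ℓ)) y := (MulChar.pow_apply' Φ (by omega) y).symm
  rw [h4, h3, eta_apply, pow_succ, pow_mul, ← Int.cast_pow, quadraticChar_sq_one hy0,
    Int.cast_one, one_pow, one_mul]

end

/-- Extremal sums. -/
theorem extremal {ι : Type} (s : Finset ι) (f : ι → ℂ) (M : ℝ) (h1 : ∀ i ∈ s, ‖f i‖ ≤ M)
    (h2 : ∑ i ∈ s, f i = ((#s * M : ℝ) : ℂ)) : ∀ i ∈ s, f i = (M : ℂ) := by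
  have h3 : ∑ i ∈ s, (M - (f i).re) = 0 := by
    have := congrArg Complex.re h2
    rw [Complex.re_sum, Complex.ofReal_re] at this
    rw [sum_sub_distrib, sum_const, nsmul_eq_mul, this, sub_self]
  have h4 : ∀ i ∈ s, 0 ≤ M - (f i).re := fun i hi =>
    sub_nonneg.2 ((Complex.re_le_norm _).trans (h1 i hi))
  intro i hi
  have h5 := (sum_eq_zero_iff_of_nonneg h4).1 h3 i hi
  have h6 : (f i).re = M := by linarith
  have h7 : ‖f i‖ ^ 2 ≤ M ^ 2 := by
    have := h1 i hi
    exact pow_le_pow_left₀ (norm_nonneg _) this 2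
  rw [← Complex.normSq_eq_norm_sq, Complex.normSq_apply, h6] at h7
  have h8 : (f i).im = 0 := by nlinarith [mul_self_nonneg (f i).im]
  apply Complex.ext
  · rw [h6, Complex.ofReal_re]
  · rw [h8, Complex.ofReal_im]

section
variable {E : Type} [Field E] [Fintype E] [DecidableEq E]

/-- If the sum over the characters of order `4 * ℓ` is extremal then each value is. -/
theorem each (hE : ringChar E ≠ 2) {ℓ : ℕ} (hℓp : ℓ.Prime) (hℓ : ℓ % 4 = 1)
    (hdvd : 4 * ℓ ∣ Fintype.card E - 1) (c : E → ℤ) (M : ℤ)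
    (hM : ∀ Φ : MulChar E ℂ, orderOf Φ = 4 * ℓ → ‖∑ z : E, Φ z * (c z : ℂ)‖ ≤ M)
    (htot : ∑ y : E, (quadraticChar E y * c (y ^ (2 * ℓ)) - quadraticChar E y * c (y ^ 2)) =
      2 * (ℓ - 1) * M) :
    ∃ Φ : MulChar E ℂ, orderOf Φ = 4 * ℓ ∧ ∑ z : E, Φ z * (c z : ℂ) = M := by
  obtain ⟨χ4, h4⟩ : ∃ χ : MulChar E ℂ, orderOf χ = 4 :=
    MulChar.exists_mulChar_orderOf E ((dvd_mul_right 4 ℓ).trans hdvd)
      (Complex.isPrimitiveRoot_exp 4 (by norm_num))
  obtain ⟨χl, hl⟩ : ∃ χ : MulChar E ℂ, orderOf χ = ℓ :=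
    MulChar.exists_mulChar_orderOf E ((dvd_mul_left ℓ 4).trans hdvd)
      (Complex.isPrimitiveRoot_exp ℓ hℓp.ne_zero)
  have hℓ2 := hℓp.two_le
  have hcop : Nat.Coprime 4 ℓ :=
    Nat.Coprime.pow_left 2 ((Nat.coprime_primes Nat.prime_two hℓp).2 (by omega))
  have hord : ∀ j ∈ range (ℓ - 1), orderOf (χl ^ (j + 1)) = ℓ := by
    intro j hj
    rw [mem_range] at hj
    have h5 : Nat.Coprime (orderOf χl) (j + 1) := by
      rw [hl, Nat.Prime.coprime_iff_not_dvd hℓp]
      intro h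
      have := Nat.le_of_dvd (by omega) h
      omega
    rw [h5.orderOf_pow, hl]
  have ho1 : ∀ j ∈ range (ℓ - 1), orderOf (χ4 * χl ^ (j + 1)) = 4 * ℓ := by
    intro j hj
    rw [(Commute.all χ4 (χl ^ (j + 1))).orderOf_mul_eq_mul_orderOf_of_coprime
      (by rw [h4, hord j hj]; exact hcop), h4, hord j hj]
  have ho2 : ∀ j ∈ range (ℓ - 1), orderOf (χ4⁻¹ * χl ^ (j + 1)) = 4 * ℓ := by
    intro j hj
    rw [(Commute.all χ4⁻¹ (χl ^ (j + 1))).orderOf_mul_eq_mul_orderOf_of_coprime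
      (by rw [orderOf_inv, h4, hord j hj]; exact hcop), orderOf_inv, h4, hord j hj]
  have hsum := sum_order hE hℓ χ4 χl h4 hl c
  rw [htot] at hsum
  set f : ℕ → ℂ := fun j => ∑ z : E, (χ4 * χl ^ (j + 1)) z * (c z : ℂ) with hf
  set g : ℕ → ℂ := fun j => ∑ z : E, (χ4⁻¹ * χl ^ (j + 1)) z * (c z : ℂ) with hg
  have hcard : ((#(range (ℓ - 1)) : ℝ)) = (ℓ : ℝ) - 1 := by
    rw [card_range, Nat.cast_sub (by omega)]; simp
  have h5 := extremal (range (ℓ - 1)) (fun j => f j + g j) (2 * M)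
    (by
      intro j hj
      refine (norm_add_le _ _).trans ?_
      have h6 := hM _ (ho1 j hj)
      have h7 := hM _ (ho2 j hj)
      rw [hf, hg]
      simp only
      linarith)
    (by
      rw [hsum, hcard]
      push_cast
      ring)
  have h0 : 0 ∈ range (ℓ - 1) := by rw [mem_range]; omega
  have h6 := h5 0 h0
  have h7 := extremal (univ : Finset Bool) (fun b => if b then f 0 else g 0) M
    (by
      intro b _
      cases b
      · simp only [Bool.false_eq_true, if_false]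
        exact hM _ (ho2 0 h0)
      · simp only [if_true]
        exact hM _ (ho1 0 h0))
    (by
      rw [Fintype.sum_bool]
      simp only [if_true, if_false, Bool.false_eq_true]
      rw [h6]
      simp)
  have h8 := h7 true (mem_univ _)
  simp only [if_true] at h8
  refine ⟨_, ho1 0 h0, ?_⟩
  rw [hf] at h8
  simp only at h8
  rw [h8]
  simp

end

end Pool.Agent.Q5.Cheb
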