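import Pool.Agent.Q5.Cheb.Gauss
import Pool.Agent.Q5.Cheb.Arith

/-!
# Maximal Chebyshev hyperelliptic curves
-/

set_option autoImplicit false
set_option linter.unusedSectionVars false

namespace Pool.Agent.Q5.Cheb

open Finset Polynomial Pool.Agent.Y145.DI

section
variable {p : ℕ} [Fact p.Prime]

theorem padic_side {E : Type} [Field E] [Fintype E] [DecidableEq E] [CharP E p]
    (hE : ringChar E ≠ 2) {ℓ f : ℕ} (hℓ0 : 0 < ℓ) (hf : Fintype.card E = p ^ f) (hf0 : 0 < f)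
    (hdvd : 4 * ℓ ∣ Fintype.card E - 1)
    (h : ∀ (Φ : MulChar E (PadicAlgCl p)) (ψ : AddChar E (PadicAlgCl p)), ψ.IsPrimitive →
      (∀ y, ψ (y ^ p) = ψ y) → orderOf Φ = 4 * ℓ →
      ‖gaussSum Φ ψ‖ = ‖gaussSum (Φ * eta E (PadicAlgCl p)) ψ‖) :
    ∀ b : ℕ, 0 < b → b < 4 * ℓ → b.Coprime (4 * ℓ) →
      expo p (4 * ℓ) f b = expo p (4 * ℓ) f ((b + 2 * ℓ) % (4 * ℓ)) := by
  intro b hb0 hb hcop
  obtain ⟨w, ψ, hψ1, hψ2, hgo, hw⟩ := exists_wp (p := p) E
  set T := w ^ ((Fintype.card E - 1) / (4 * ℓ)) with hT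
  have hQ1 : 1 < Fintype.card E := Fintype.one_lt_card
  have hTo : orderOf T = 4 * ℓ := by
    have hd : (Fintype.card E - 1) / (4 * ℓ) ≠ 0 := by
      have := Nat.div_pos (Nat.le_of_dvd (by omega) hdvd) (by omega : 0 < 4 * ℓ)
      omega
    rw [hT, orderOf_pow_of_dvd hd (by rw [hw]; exact Nat.div_dvd_of_dvd hdvd), hw,
      Nat.div_div_self hdvd (by omega)]
  have hbodd : b % 2 = 1 := by
    by_contra hb2
    have h3 : 2 ∣ b := by omega
    have h4 : 2 ∣ 4 * ℓ := ⟨2 * ℓ, by ring⟩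
    have h5 := Nat.dvd_gcd h3 h4
    rw [hcop] at h5
    omega
  have heta : T ^ (2 * ℓ) = eta E (PadicAlgCl p) := by
    apply eq_eta hE
    rw [orderOf_pow_of_dvd (by omega) (hTo ▸ ⟨2, by ring⟩), hTo]
    have : 4 * ℓ = 2 * (2 * ℓ) := by ring
    rw [this, Nat.mul_div_cancel _ (by omega)]
  have hΦ : orderOf (T ^ b)⁻¹ = 4 * ℓ := by
    rw [orderOf_inv, Nat.Coprime.orderOf_pow (by rw [hTo]; exact hcop.symm), hTo]
  have h1 := h _ ψ hψ1 hψ2 hΦ
  set b' := (b + 2 * ℓ) % (4 * ℓ) with hb'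
  have hb'T : (T ^ b')⁻¹ = (T ^ b)⁻¹ * eta E (PadicAlgCl p) := by
    have h2 : T ^ b' = T ^ (b + 2 * ℓ) := by
      rw [hb', ← hTo, pow_mod_orderOf]
    rw [h2, pow_add, heta, mul_inv, eta_inv]
  have hb'2 : b' < 4 * ℓ := Nat.mod_lt _ (by omega)
  have hb'1 : 0 < b' := by
    rcases Nat.eq_zero_or_pos b' with h0 | h0
    · have h3 : 4 * ℓ ∣ b + 2 * ℓ := Nat.dvd_of_mod_eq_zero h0
      have h4 : 2 ∣ b + 2 * ℓ := (show 2 ∣ 4 * ℓ from ⟨2 * ℓ, by ring⟩).trans h3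
      omega
    · exact h0
  have e1 := norm_gauss_eq w ψ hψ1 hψ2 hgo hw hf hdvd hf0 b hb0 hb
  have e2 := norm_gauss_eq w ψ hψ1 hψ2 hgo hw hf hdvd hf0 b' hb'1 hb'2
  rw [← hT] at e1 e2
  rw [hb'T, ← h1, e1] at e2
  obtain ⟨hp0, hp1⟩ := norm_p_lt (p := p)
  exact pow_right_injective₀ hp0 hp1.ne e2

end

section
variable {F : Type} [Field F] [Fintype F] [DecidableEq F]
variable {K : Type} [Field K] [Fintype K] [DecidableEq K] [Algebra F K]

/-- The character sum of the curve. -/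
noncomputable def S (F : Type) [Field F] [Fintype F] [DecidableEq F] (ℓ : ℕ) : ℤ :=
  ∑ x : F, quadraticChar F ((dickson 1 (1 : F) ℓ).eval x)

theorem card_curve (hF : ringChar F ≠ 2) (ℓ : ℕ) :
    (Nat.card {P : F × F // P.2 ^ 2 = (dickson 1 (1 : F) ℓ).eval P.1} : ℤ) =
      Fintype.card F + S F ℓ := by
  have h1 : Nat.card {P : F × F // P.2 ^ 2 = (dickson 1 (1 : F) ℓ).eval P.1} =
      ∑ x : F, #(univ.filter (fun b : F => b ^ 2 = (dickson 1 (1 : F) ℓ).eval x)) := by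
    rw [Nat.card_eq_fintype_card, Fintype.card_subtype, card_eq_sum_ones, sum_filter,
      Fintype.sum_prod_type]
    refine sum_congr rfl fun x _ => ?_
    rw [card_eq_sum_ones, sum_filter]
  rw [h1]
  push_cast
  rw [sum_congr rfl fun x _ => card_sq hF _, sum_add_distrib, sum_const, card_univ]
  simp [S]

theorem eval_star {ℓ : ℕ} {t : F} (ht : t ≠ 0) :
    (dickson 1 (1 : F) ℓ).eval (t + t⁻¹) = t ^ ℓ + (t ^ ℓ)⁻¹ := by
  rw [dickson_one_one_eval_add_inv _ _ (mul_inv_cancel₀ ht), inv_pow]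

theorem eval_mu (h2 : Module.finrank F K = 2) {ℓ : ℕ} {t : K} (ht : t ∈ mu F K) :
    (dickson 1 (1 : F) ℓ).eval (Algebra.trace F K t) = Algebra.trace F K (t ^ ℓ) := by
  have ht' : t ^ (Fintype.card F + 1) = 1 := (mem_filter.1 ht).2
  apply (algebraMap F K).injective
  have h1 : t * t ^ Fintype.card F = 1 := by rw [← ht']; ring
  rw [← eval_map_apply, map_dickson, map_one, alg_tr h2, dickson_one_one_eval_add_inv _ _ h1,
    alg_tr h2, ← pow_mul, ← pow_mul, mul_comm]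

/-- The first difference. -/
def dA (F : Type) [Field F] [Fintype F] [DecidableEq F] (ℓ : ℕ) : ℤ :=
  ∑ t ∈ univ.filter (fun t : F => t ≠ 0), quadraticChar F (t ^ ℓ + (t ^ ℓ)⁻¹) -
    ∑ t ∈ univ.filter (fun t : F => t ≠ 0), quadraticChar F (t + t⁻¹)

/-- The second difference. -/
noncomputable def dB (F K : Type) [Field F] [Fintype F] [DecidableEq F] [Field K] [Fintype K]
    [DecidableEq K] [Algebra F K] (ℓ : ℕ) : ℤ :=
  ∑ t ∈ mu F K, quadraticChar F (Algebra.trace F K (t ^ ℓ)) -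
    ∑ t ∈ mu F K, quadraticChar F (Algebra.trace F K t)

theorem dA_add_dB (h2 : Module.finrank F K = 2) (hF : ringChar F ≠ 2) (ℓ : ℕ) :
    dA F ℓ + dB F K ℓ = 2 * S F ℓ := by
  have h3 := sum_both h2 hF (fun x => quadraticChar F ((dickson 1 (1 : F) ℓ).eval x))
  have h4 := sum_both h2 hF (fun x => quadraticChar F x)
  rw [quadraticChar_sum_zero hF] at h4
  rw [sum_congr rfl fun t ht => by rw [eval_star (mem_filter.1 ht).2]] at h3
  have h5 : ∑ t ∈ mu F K, quadraticChar F ((dickson 1 (1 : F) ℓ).eval (Algebra.trace F K t)) =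
      ∑ t ∈ mu F K, quadraticChar F (Algebra.trace F K (t ^ ℓ)) :=
    sum_congr rfl fun t ht => by rw [eval_mu h2 ht]
  rw [h5] at h3
  unfold dA dB S
  linarith

theorem dA_eq_zero (hF : ringChar F ≠ 2) {ℓ : ℕ} (h : Nat.Coprime ℓ (Fintype.card F - 1)) :
    dA F ℓ = 0 := by
  unfold dA
  rw [sum_star_pow hF h (fun t => quadraticChar F (t + t⁻¹)), sub_self]

theorem dB_eq_zero {ℓ : ℕ} (h : Nat.Coprime ℓ (Fintype.card F + 1)) :
    dB F K ℓ = 0 := by
  unfold dB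
  rw [sum_mu_pow h (fun t => quadraticChar F (Algebra.trace F K t)), sub_self]

theorem dA_eq (ℓ : ℕ) (hℓ : ℓ % 2 = 1) :
    ∑ y : F, (quadraticChar F y * quadraticChar F (1 + y ^ (2 * ℓ)) -
      quadraticChar F y * quadraticChar F (1 + y ^ 2)) = dA F ℓ := by
  unfold dA
  rw [← sum_sub_distrib, sum_filter]
  refine sum_congr rfl fun y _ => ?_
  by_cases hy : y = 0
  · rw [if_neg (not_not.2 hy), hy, MulChar.map_zero]; ring
  · rw [if_pos hy]
    have key : ∀ u : F, u ≠ 0 → quadraticChar F u * quadraticChar F (1 + u ^ 2) =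
        quadraticChar F (u + u⁻¹) := by
      intro u hu
      have h1 : u + u⁻¹ = u * (1 + u ^ 2) * (u⁻¹) ^ 2 := by
        field_simp
        ring
      rw [h1, map_mul, quadraticChar_sq_one' (inv_ne_zero hu), mul_one, map_mul]
    have h2 : quadraticChar F y = quadraticChar F (y ^ ℓ) := by
      obtain ⟨k, hk⟩ : ∃ k, ℓ = 2 * k + 1 := ⟨ℓ / 2, by omega⟩
      rw [hk, pow_succ, pow_mul, map_mul, map_pow, quadraticChar_sq_one' hy, one_pow, one_mul]
    rw [key y hy, ← key (y ^ ℓ) (pow_ne_zero _ hy), ← h2, ← pow_mul, mul_comm ℓ 2]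

theorem dB_eq (h2 : Module.finrank F K = 2) (hF : ringChar F ≠ 2) (ℓ : ℕ) (hℓ : ℓ % 2 = 1) :
    ∑ y : K, (quadraticChar K y * quadraticChar F (Algebra.trace F K (y ^ (2 * ℓ))) -
      quadraticChar K y * quadraticChar F (Algebra.trace F K (y ^ 2))) =
      ((Fintype.card F : ℤ) - 1) * dB F K ℓ := by
  unfold dB
  rw [mul_sub, ← sum_pow_sub_one h2 (fun t => quadraticChar F (Algebra.trace F K (t ^ ℓ))),
    ← sum_pow_sub_one h2 (fun t => quadraticChar F (Algebra.trace F K t)),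
    ← sum_sub_distrib, sum_filter]
  refine sum_congr rfl fun y _ => ?_
  by_cases hy : y = 0
  · rw [if_neg (not_not.2 hy), hy, MulChar.map_zero]; ring
  · rw [if_pos hy]
    have h3 : quadraticChar K y = quadraticChar K (y ^ ℓ) := by
      obtain ⟨k, hk⟩ : ∃ k, ℓ = 2 * k + 1 := ⟨ℓ / 2, by omega⟩
      rw [hk, pow_succ, pow_mul, map_mul, map_pow, quadraticChar_sq_one' hy, one_pow, one_mul]
    have h4 : (y ^ (Fintype.card F - 1)) ^ ℓ = (y ^ ℓ) ^ (Fintype.card F - 1) := by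
      rw [← pow_mul, ← pow_mul, mul_comm]
    have h5 : (y ^ ℓ) ^ 2 = y ^ (2 * ℓ) := by rw [← pow_mul, mul_comm]
    rw [← chi_tr h2 hF hy, h4, ← chi_tr h2 hF (pow_ne_zero ℓ hy), ← h3, h5]

end

section
variable {p : ℕ} [Fact p.Prime]

theorem psi_pow {E L : Type} [Field E] [Field L] (ψ : AddChar E L) (h : ∀ y, ψ (y ^ p) = ψ y)
    (n : ℕ) (y : E) : ψ (y ^ p ^ n) = ψ y := by
  induction n with
  | zero => rw [pow_zero, pow_one]
  | succ n ih => rw [pow_succ, pow_mul, h, ih]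

theorem eta_mul_order {E : Type} [Field E] [Fintype E] [DecidableEq E] (hE : ringChar E ≠ 2)
    {L : Type} [Field L] (Φ : MulChar E L) {ℓ : ℕ} (hℓ0 : 0 < ℓ) (hℓ : ℓ % 2 = 1)
    (hΦ : orderOf Φ = 4 * ℓ) : orderOf (Φ * eta E L) = 4 * ℓ := by
  have heta : Φ ^ (2 * ℓ) = eta E L := by
    apply eq_eta hE
    rw [orderOf_pow_of_dvd (by omega) (hΦ ▸ ⟨2, by ring⟩), hΦ]
    have : 4 * ℓ = 2 * (2 * ℓ) := by ring
    rw [this, Nat.mul_div_cancel _ (by omega)]
  rw [← heta, ← pow_succ', Nat.Coprime.orderOf_pow, hΦ]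
  rw [hΦ]
  apply Nat.Coprime.mul_left
  · exact Nat.Coprime.pow_left 2 ((Nat.Prime.coprime_iff_not_dvd Nat.prime_two).2 (by omega))
  · rw [mul_comm 2 ℓ, Nat.coprime_mul_left_add_right]
    exact Nat.coprime_one_right ℓ

/-- Case A: `ℓ` divides `Q + 1`. -/
theorem caseA {F : Type} [Field F] [Fintype F] [DecidableEq F] [CharP F p]
    {K : Type} [Field K] [Fintype K] [DecidableEq K] [Algebra F K] [CharP K p]
    (h2 : Module.finrank F K = 2) (hF : ringChar F ≠ 2) {ℓ f : ℕ} (hℓp : ℓ.Prime)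
    (hℓ : ℓ % 4 = 1) (hf0 : 0 < f) (hcard : Fintype.card F = (p ^ f) ^ 2)
    (hd : ∃ m, Fintype.card F + 1 = (2 * ℓ) * (2 * m + 1))
    (hdvd : 4 * ℓ ∣ Fintype.card K - 1)
    (hS : dB F K ℓ = 2 * ((ℓ - 1) * p ^ f)) :
    ∀ b : ℕ, 0 < b → b < 4 * ℓ → b.Coprime (4 * ℓ) →
      expo p (4 * ℓ) (4 * f) b = expo p (4 * ℓ) (4 * f) ((b + 2 * ℓ) % (4 * ℓ)) := by
  have hℓ0 := hℓp.pos
  have hK : ringChar K ≠ 2 := by rwa [← Algebra.ringChar_eq F K]
  have hcK := card_K (F := F) (K := K) h2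
  have hQ1 : 1 < Fintype.card F := Fintype.one_lt_card
  set c : K → ℤ := fun z => quadraticChar F (Algebra.trace F K z) with hc
  set Q := Fintype.card F with hQ
  have hne1 : ∀ {L : Type} [Field L] (Φ : MulChar K L), orderOf Φ = 4 * ℓ → Φ ≠ 1 := by
    intro L _ Φ h h'
    rw [h', orderOf_one] at h
    omega
  have hbound : ∀ Φ : MulChar K ℂ, orderOf Φ = 4 * ℓ →
      ‖∑ z : K, Φ z * (c z : ℂ)‖ ≤ (((Q : ℤ) - 1) * p ^ f : ℤ) := by
    intro Φ hΦ
    set ψF := AddChar.FiniteField.primitiveChar_to_Complex F with hψF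
    have hprim : ψF.IsPrimitive := AddChar.FiniteField.primitiveChar_to_Complex_isPrimitive F
    set ψK : AddChar K ℂ := ψF.compAddMonoidHom (Algebra.trace F K).toAddMonoidHom with hψK
    have hψ : ∀ z, ψK z = ψF (Algebra.trace F K z) := fun z => rfl
    have hprimK : ψK.IsPrimitive := by
      apply AddChar.IsPrimitive.of_ne_one
      intro h
      have h3 : ψF = 1 := by
        ext r
        obtain ⟨z, hz⟩ := Algebra.trace_surjective F K r
        rw [← hz, ← hψ, h]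
        simp
      have h4 := hprim one_ne_zero
      apply h4
      rw [h3]
      ext; simp
    have h3 := gaussA hF Φ (restrict h2 hF Φ hℓ0 hΦ hd) ψF ψK hψ
    have h4 := norm_gaussC (eta F ℂ) (eta_ne_one hF) hprim
    have h5 := norm_gaussC Φ (hne1 Φ hΦ) hprimK
    have h6 := congrArg (fun z : ℂ => ‖z‖ ^ 2) h3
    simp only [norm_mul, mul_pow] at h6
    rw [h4, h5, hcK] at h6
    have h7 : ‖((Fintype.card F : ℂ) - 1)‖ = (Q : ℝ) - 1 := by
      rw [← hQ]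
      have : ((Q : ℂ) - 1) = ((Q - 1 : ℝ) : ℂ) := by push_cast; ring
      rw [this, Complex.norm_real, Real.norm_eq_abs, abs_of_nonneg]
      have : (1 : ℝ) < Q := by exact_mod_cast hQ1
      linarith
    rw [h7, ← hQ] at h6
    have hq0 : (0 : ℝ) < Q := by exact_mod_cast (by omega : 0 < Q)
    have hQ2 : (Q : ℝ) = ((p : ℝ) ^ f) ^ 2 := by exact_mod_cast hcard
    have h8 : ‖∑ z : K, Φ z * (c z : ℂ)‖ ^ 2 = (((Q : ℝ) - 1) * (p : ℝ) ^ f) ^ 2 := by
      apply mul_right_cancel₀ hq0.ne'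
      rw [h6, mul_pow]
      push_cast
      rw [← hQ2]
      ring
    have h9 : (0 : ℝ) ≤ ((Q : ℝ) - 1) * (p : ℝ) ^ f := by
      apply mul_nonneg
      · have : (1 : ℝ) < Q := by exact_mod_cast hQ1
        linarith
      · positivity
    have h10 := (sq_eq_sq₀ (norm_nonneg _) h9).1 h8
    rw [h10]
    push_cast
    exact le_refl _
  obtain ⟨Φ0, hΦ0, hval⟩ := each hK hℓp hℓ hdvd c (((Q : ℤ) - 1) * p ^ f) hbound (by
    rw [hc]
    simp only
    rw [dB_eq h2 hF ℓ (by omega), hS]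
    ring)
  have hfK : Fintype.card K = p ^ (4 * f) := by
    rw [hcK, hcard]; ring
  apply padic_side hK hℓ0 hfK (by omega) hdvd
  intro Φ ψ hψ1 hψ2 hΦ
  have h20 : (2 : F) ≠ 0 := Ring.two_ne_zero hF
  set ψF : AddChar F (PadicAlgCl p) := ψ.compAddMonoidHom
    ((algebraMap F K).toAddMonoidHom.comp (AddMonoidHom.mulLeft ((2 : F)⁻¹))) with hψF
  have hψ : ∀ z, ψ z = ψF (Algebra.trace F K z) := by
    intro z
    have h3 : ψF (Algebra.trace F K z) = ψ (algebraMap F K ((2 : F)⁻¹ * Algebra.trace F K z)) := rfl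
    have h5 : algebraMap F K (2 : F)⁻¹ ^ Q = algebraMap F K (2 : F)⁻¹ := by
      rw [← map_pow, hQ, FiniteField.pow_card]
    have h4 : algebraMap F K ((2 : F)⁻¹ * Algebra.trace F K z) =
        algebraMap F K (2 : F)⁻¹ * z + (algebraMap F K (2 : F)⁻¹ * z) ^ Q := by
      rw [map_mul, alg_tr h2, mul_pow, ← hQ, h5]; ring
    have h6 : Q = p ^ (2 * f) := by rw [hcard]; ring
    rw [h3, h4, AddChar.map_add_eq_mul, h6, psi_pow ψ hψ2, ← AddChar.map_add_eq_mul]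
    congr 1
    rw [← add_mul, ← map_add]
    have h7 : (2 : F)⁻¹ + (2 : F)⁻¹ = 1 := by
      rw [← two_mul, mul_inv_cancel₀ h20]
    rw [h7, map_one, one_mul]
  have hQL : ((Fintype.card F : PadicAlgCl p) - 1) ≠ 0 := by
    rw [sub_ne_zero]
    exact_mod_cast hQ1.ne'
  have e : ∀ Ξ : MulChar K (PadicAlgCl p), orderOf Ξ = 4 * ℓ →
      ((((Q : ℤ) - 1) * p ^ f : ℤ) : PadicAlgCl p) * gaussSum (eta F (PadicAlgCl p)) ψF =
        ((Fintype.card F : PadicAlgCl p) - 1) * gaussSum Ξ ψ := by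
    intro Ξ hΞ
    rw [← gaussA hF Ξ (restrict h2 hF Ξ hℓ0 hΞ hd) ψF ψ hψ]
    congr 1
    exact (transferW c Φ0 Ξ (by omega) hΦ0 hΞ _ hval).symm
  have e1 := e Φ hΦ
  have e2 := e _ (eta_mul_order hK Φ hℓ0 (by omega) hΦ)
  rw [e1] at e2
  rw [mul_left_cancel₀ hQL e2]

/-- Case B: `ℓ` divides `Q - 1`. -/
theorem caseB {F : Type} [Field F] [Fintype F] [DecidableEq F] [CharP F p]
    (hF : ringChar F ≠ 2) {ℓ f : ℕ} (hℓp : ℓ.Prime)
    (hℓ : ℓ % 4 = 1) (hf0 : 0 < f) (hcard : Fintype.card F = (p ^ f) ^ 2)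
    (hdvd : 4 * ℓ ∣ Fintype.card F - 1)
    (hS : dA F ℓ = 2 * ((ℓ - 1) * p ^ f)) :
    ∀ b : ℕ, 0 < b → b < 4 * ℓ → b.Coprime (4 * ℓ) →
      expo p (4 * ℓ) (2 * f) b = expo p (4 * ℓ) (2 * f) ((b + 2 * ℓ) % (4 * ℓ)) := by
  have hℓ0 := hℓp.pos
  have hQ1 : 1 < Fintype.card F := Fintype.one_lt_card
  have hp0 : 0 < p := (Fact.out : p.Prime).pos
  set c : F → ℤ := fun v => quadraticChar F (1 + v) with hc
  set Q := Fintype.card F with hQ
  have hne1 : ∀ {L : Type} [Field L] (Φ : MulChar F L), orderOf Φ = 4 * ℓ → Φ ≠ 1 := by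
    intro L _ Φ h h'
    rw [h', orderOf_one] at h
    omega
  have hbound : ∀ Φ : MulChar F ℂ, orderOf Φ = 4 * ℓ →
      ‖∑ z : F, Φ z * (c z : ℂ)‖ ≤ ((p ^ f : ℤ) : ℝ) := by
    intro Φ hΦ
    set ψF := AddChar.FiniteField.primitiveChar_to_Complex F with hψF
    have hprim : ψF.IsPrimitive := AddChar.FiniteField.primitiveChar_to_Complex_isPrimitive F
    have hΦη := hne1 _ (eta_mul_order hF Φ hℓ0 (by omega) hΦ)
    have h3 := gaussB Φ hΦη ψF
    have h4 := norm_gaussC (eta F ℂ) (eta_ne_one hF) hprim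
    have h5 := norm_gaussC Φ (hne1 Φ hΦ) hprim
    have h5' := norm_gaussC _ hΦη hprim
    have h6 := congrArg (fun z : ℂ => ‖z‖ ^ 2) h3
    simp only [norm_mul, mul_pow] at h6
    rw [h4, h5, h5'] at h6
    have h7 : ‖Φ (-1)‖ ^ 2 = 1 := by
      have : Φ (-1) ^ 2 = 1 := by rw [← map_pow]; simp
      rw [← norm_pow, this, norm_one]
    rw [h7, ← hQ, one_mul] at h6
    have hq0 : (0 : ℝ) < Q := by exact_mod_cast (by omega : 0 < Q)
    have hQ2 : (Q : ℝ) = ((p : ℝ) ^ f) ^ 2 := by exact_mod_cast hcard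
    have h8 : ‖∑ z : F, Φ z * (c z : ℂ)‖ ^ 2 = ((p : ℝ) ^ f) ^ 2 := by
      apply mul_left_cancel₀ hq0.ne'
      rw [h6, ← hQ2]
    have h10 := (sq_eq_sq₀ (norm_nonneg _) (by positivity)).1 h8
    rw [h10]
    push_cast
    exact le_refl _
  obtain ⟨Φ0, hΦ0, hval⟩ := each hF hℓp hℓ hdvd c (p ^ f) (by exact_mod_cast hbound) (by
    rw [hc]
    simp only
    rw [dA_eq ℓ (by omega), hS]
    ring)
  have hfF : Fintype.card F = p ^ (2 * f) := by
    rw [← hQ, hcard]; ring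
  apply padic_side hF hℓ0 hfF (by omega) hdvd
  intro Φ ψ hψ1 hψ2 hΦ
  have hΦη := hne1 _ (eta_mul_order hF Φ hℓ0 (by omega) hΦ)
  have h3 := gaussB Φ hΦη ψ
  have hv : ∑ v : F, Φ v * ((quadraticChar F (1 + v) : ℤ) : PadicAlgCl p) =
      ((p ^ f : ℤ) : PadicAlgCl p) := transferW c Φ0 Φ (by omega) hΦ0 hΦ _ hval
  rw [hv] at h3
  have hneg : ∀ Ξ : MulChar F (PadicAlgCl p), ‖Ξ (-1)‖ = 1 := by
    intro Ξ
    have : Ξ (-1) ^ 2 = 1 := by rw [← map_pow]; simp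
    have h9 := congrArg norm this
    rw [norm_pow, norm_one] at h9
    exact (pow_eq_one_iff_of_nonneg (norm_nonneg _) two_ne_zero).1 h9
  have h4 := gaussSum_mul_gaussSum_eq_card (eta_ne_one hF (L := PadicAlgCl p)) hψ1
  rw [eta_inv] at h4
  have h5 : gaussSum (eta F (PadicAlgCl p)) ψ⁻¹ =
      eta F (PadicAlgCl p) (-1) * gaussSum (eta F (PadicAlgCl p)) ψ := by
    have h7 := gaussSum_mulShift_eq (eta F (PadicAlgCl p)) ψ (-1 : Fˣ)
    rw [eta_inv] at h7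
    have h8 : AddChar.mulShift ψ ((-1 : Fˣ) : F) = ψ⁻¹ := by
      ext x
      rw [AddChar.mulShift_apply, AddChar.inv_apply]
      congr 1
      simp
    rw [h8] at h7
    rw [h7]
    simp
  have h6 : ‖gaussSum (eta F (PadicAlgCl p)) ψ‖ ^ 2 = ‖((p ^ f : ℤ) : PadicAlgCl p)‖ ^ 2 := by
    have h8 := congrArg norm h4
    rw [h5, norm_mul, norm_mul, hneg, one_mul, ← hQ, hcard] at h8
    rw [sq, h8, ← norm_pow]
    push_cast
    rfl
  have h7 := (sq_eq_sq₀ (norm_nonneg _) (norm_nonneg _)).1 h6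
  have h8 := congrArg norm h3
  rw [norm_mul, norm_mul, norm_mul, hneg, one_mul, h7] at h8
  have h9 : ‖((p ^ f : ℤ) : PadicAlgCl p)‖ ≠ 0 := by
    rw [norm_ne_zero_iff]
    push_cast
    exact pow_ne_zero _ (by exact_mod_cast hp0.ne')
  exact (mul_right_cancel₀ h9 h8).symm

end

/-- The main theorem. -/
theorem main (ℓ p : ℕ) (hℓp : ℓ.Prime) (hp : p.Prime) (hne : ℓ ≠ p) (hℓ : ℓ % 4 = 1)
    (hp4 : p % 4 = 1) (f : ℕ) (hf : 1 ≤ f) (F : Type) [Field F] [Finite F]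
    (hF : Nat.card F = p ^ (2 * f))
    (hmax : (Nat.card {P : F × F // P.2 ^ 2 = (dickson 1 (1 : F) ℓ).eval P.1} : ℤ) =
      p ^ (2 * f) + (ℓ - 1) * p ^ f) :
    orderOf (p : ZMod ℓ) = ℓ - 1 := by
  classical
  have : Fact p.Prime := ⟨hp⟩
  have : Fact ℓ.Prime := ⟨hℓp⟩
  have := Fintype.ofFinite F
  rw [Nat.card_eq_fintype_card] at hF
  have hchar : CharP F p := by
    obtain ⟨p', hp'⟩ := CharP.exists F
    obtain ⟨n, hn, hn2⟩ := FiniteField.card F p'
    rw [hF] at hn2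
    have h1 : p ∣ p' ^ (n : ℕ) := hn2 ▸ dvd_pow_self p (by omega)
    have h2 := hp.dvd_of_dvd_pow h1
    rw [(Nat.prime_dvd_prime_iff_eq hp hn).1 h2]
    exact hp'
  have hrc : ringChar F ≠ 2 := by
    rw [ringChar.eq F p]
    omega
  have hℓ2 := hℓp.two_le
  have hcard : Fintype.card F = (p ^ f) ^ 2 := by rw [hF]; ring
  have hp2 := hp.two_le
  have hq2 : p ≤ p ^ f := Nat.le_self_pow (by omega) p
  -- the quadratic extension
  set K := FiniteField.Extension F p 2 with hK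
  have := Fintype.ofFinite K
  have h2 : Module.finrank F K = 2 := FiniteField.finrank_extension F p 2
  have hcK : CharP K p := charP_of_injective_algebraMap (algebraMap F K).injective p
  have hcardK := card_K (F := F) (K := K) h2
  -- the sum
  have hS : S F ℓ = (ℓ - 1) * p ^ f := by
    have h1 := card_curve hrc ℓ
    rw [hmax, hF] at h1
    push_cast at h1
    linarith
  have hsum := dA_add_dB (K := K) h2 hrc ℓ
  rw [hS] at hsum
  -- congruences
  have hq4 : p ^ f % 4 = 1 := by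
    rw [Nat.pow_mod, hp4, one_pow]
    rfl
  obtain ⟨k, hk⟩ : ∃ k, p ^ f = 4 * k + 1 := ⟨p ^ f / 4, by omega⟩
  have hQ8 : Fintype.card F = 8 * (2 * k ^ 2 + k) + 1 := by rw [hcard, hk]; ring
  have hQpos : 1 < Fintype.card F := Fintype.one_lt_card
  have hKfac : Fintype.card K - 1 = (Fintype.card F - 1) * (Fintype.card F + 1) := by
    rw [hcardK]
    obtain ⟨j, hj⟩ : ∃ j, Fintype.card F = j + 1 := ⟨Fintype.card F - 1, by omega⟩
    rw [hj, Nat.add_sub_cancel]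
    have : (j + 1) ^ 2 = j * (j + 1 + 1) + 1 := by ring
    omega
  have hnot : ¬ (ℓ ∣ Fintype.card F - 1 ∧ ℓ ∣ Fintype.card F + 1) := by
    rintro ⟨h3, h4⟩
    have h5 : ℓ ∣ 2 := by
      have h6 := Nat.dvd_sub h4 h3
      have h7 : Fintype.card F + 1 - (Fintype.card F - 1) = 2 := by omega
      rwa [h7] at h6
    have := Nat.le_of_dvd (by norm_num) h5
    omega
  by_cases hA : ℓ ∣ Fintype.card F + 1
  · have hB : ¬ ℓ ∣ Fintype.card F - 1 := fun h => hnot ⟨h, hA⟩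
    have h3 : dA F ℓ = 0 := dA_eq_zero hrc ((Nat.Prime.coprime_iff_not_dvd hℓp).2 hB)
    rw [h3, zero_add] at hsum
    have hd : ∃ m, Fintype.card F + 1 = (2 * ℓ) * (2 * m + 1) := by
      obtain ⟨c, hc⟩ := hA
      have h4 : c % 4 = 2 := by
        have h5 : (ℓ * c) % 4 = 2 := by rw [← hc, hQ8]; omega
        rw [Nat.mul_mod, hℓ, one_mul, Nat.mod_mod] at h5
        exact h5
      refine ⟨c / 4, ?_⟩
      rw [hc]
      have h5 : c = 4 * (c / 4) + 2 := by omega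
      nth_rewrite 1 [h5]
      ring
    have hdvd : 4 * ℓ ∣ Fintype.card K - 1 := by
      rw [hKfac]
      apply Nat.mul_dvd_mul _ hA
      rw [hQ8, Nat.add_sub_cancel]
      exact ⟨2 * (2 * k ^ 2 + k), by ring⟩
    exact main_arith ℓ p (4 * f) hp hne hℓ hp4 (by omega)
      (caseA h2 hrc hℓp hℓ (by omega) hcard hd hdvd (by rw [hsum]))
  · have h3 : dB F K ℓ = 0 := dB_eq_zero ((Nat.Prime.coprime_iff_not_dvd hℓp).2 hA)
    rw [h3, add_zero] at hsum
    by_cases hB : ℓ ∣ Fintype.card F - 1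
    · have hdvd : 4 * ℓ ∣ Fintype.card F - 1 := by
        apply Nat.Coprime.mul_dvd_of_dvd_of_dvd _ _ hB
        · exact Nat.Coprime.pow_left 2 ((Nat.coprime_primes Nat.prime_two hℓp).2 (by omega))
        · rw [hQ8, Nat.add_sub_cancel]
          exact ⟨2 * (2 * k ^ 2 + k), by ring⟩
      exact main_arith ℓ p (2 * f) hp hne hℓ hp4 (by omega)
        (caseB hrc hℓp hℓ (by omega) hcard hdvd (by rw [hsum]))
    · exfalso
      have h4 : dA F ℓ = 0 := dA_eq_zero hrc ((Nat.Prime.coprime_iff_not_dvd hℓp).2 hB)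
      rw [h4] at hsum
      have h5 : (0 : ℤ) < (ℓ - 1) * p ^ f := by
        apply mul_pos
        · have : (2 : ℤ) ≤ ℓ := by exact_mod_cast hℓ2
          linarith
        · exact_mod_cast (by omega : 0 < p ^ f)
      linarith

end Pool.Agent.Q5.Cheb
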